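import Pool.Agent.H194R2.MZ.Defs

/-!
# Blocks (task MZ4)
-/

namespace Pool.Agent.H194R2.MZ

open Finset Pool.Agent.H194R2.JS

section bl_

variable {V E : Type} [Fintype V] [DecidableEq V] [DecidableEq E]

omit [DecidableEq E] [Fintype V] in
theorem bl_mem_vs {en : E → V × V} {A : Finset E} {u : V} :
    u ∈ vs en A ↔ ∃ e ∈ A, (en e).1 = u ∨ (en e).2 = u := by
  unfold vs
  rw [mem_union, mem_image, mem_image]
  constructor
  · rintro (⟨e, he, h⟩ | ⟨e, he, h⟩)
    · exact ⟨e, he, Or.inl h⟩
    · exact ⟨e, he, Or.inr h⟩
  · rintro ⟨e, he, h | h⟩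
    · exact Or.inl ⟨e, he, h⟩
    · exact Or.inr ⟨e, he, h⟩

omit [DecidableEq E] [Fintype V] in
theorem bl_vs_red {en : E → V × V} {x y : V} {A : Finset E} {w : V}
    (h : w ∈ vs (red x y en) A) : w ∈ vs en A ∨ w = x := by
  rw [bl_mem_vs] at h
  obtain ⟨e, he, h⟩ := h
  unfold red at h
  simp only at h
  rcases h with h | h
  · by_cases hc : (en e).1 = y
    · rw [if_pos hc] at h
      exact Or.inr h.symm
    · rw [if_neg hc] at h
      exact Or.inl (bl_mem_vs.2 ⟨e, he, Or.inl h⟩)
  · by_cases hc : (en e).2 = y
    · rw [if_pos hc] at h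
      exact Or.inr h.symm
    · rw [if_neg hc] at h
      exact Or.inl (bl_mem_vs.2 ⟨e, he, Or.inr h⟩)

omit [DecidableEq E] [Fintype V] in
theorem bl_red_eq {en : E → V × V} {x y : V} {A : Finset E} (h : y ∉ vs en A) :
    ∀ e ∈ A, red x y en e = en e := by
  intro e he
  have h1 : (en e).1 ≠ y := fun hc => h (bl_mem_vs.2 ⟨e, he, Or.inl hc⟩)
  have h2 : (en e).2 ≠ y := fun hc => h (bl_mem_vs.2 ⟨e, he, Or.inr hc⟩)
  unfold red
  rw [if_neg h1, if_neg h2]

omit [DecidableEq E] [Fintype V] in
theorem bl_vs_red_eq {en : E → V × V} {x y : V} {A : Finset E} (h : y ∉ vs en A) :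
    vs (red x y en) A = vs en A := by
  unfold vs
  have h1 := bl_red_eq (x := x) h
  congr 1
  · exact image_congr fun e he => by rw [h1 e he]
  · exact image_congr fun e he => by rw [h1 e he]

/-- the partition function is multiplicative over one-sums -/
theorem bl_mult {q v : ℝ} (hq : q ≠ 0) : ∀ (n : ℕ) (A : Finset E), A.card = n →
    ∀ (en : E → V × V) (B : Finset E), Disjoint A B → (vs en A ∩ vs en B).card ≤ 1 →
    F q en (fun _ => v) ∅ (A ∪ B) * q ^ Fintype.card V =
      F q en (fun _ => v) ∅ A * F q en (fun _ => v) ∅ B := by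
  intro n
  induction n with
  | zero =>
    intro A hA en B _ _
    rw [card_eq_zero] at hA
    subst hA
    rw [empty_union, SubNet.F_empty, kk_empty, mul_comm]
  | succ n ih =>
    intro A hA en B hAB hcard
    obtain ⟨e, he⟩ : A.Nonempty := by
      rw [← card_pos]
      omega
    have heB : e ∉ B := fun h => (disjoint_left.1 hAB) he h
    have hA' : (A.erase e).card = n := by
      rw [card_erase_of_mem he]
      omega
    have hdis : Disjoint (A.erase e) B := hAB.mono_left (erase_subset e A)
    have hun : (A ∪ B).erase e = A.erase e ∪ B := by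
      rw [erase_union_distrib, erase_eq_of_notMem heB]
    have hsub : vs en (A.erase e) ⊆ vs en A := SubNet.vs_mono (erase_subset e A)
    have ih1 := ih (A.erase e) hA' en B hdis
      ((card_le_card (inter_subset_inter_right hsub)).trans hcard)
    rw [F_split (S := A ∪ B) (mem_union_left B he), F_split (S := A) he, hun]
    by_cases hloop : (en e).1 = (en e).2
    · have hl : en e = ((en e).1, (en e).1) := by
        conv_rhs => rw [← Prod.mk.eta (p := en e)]
        rw [Prod.ext_iff]
        exact ⟨rfl, hloop.symm⟩
      rw [SubNet.F_loop hl, SubNet.F_loop hl]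
      linear_combination (1 + v) * ih1
    · -- orient `e` such that the absorbed vertex is not in `vs en B`
      obtain ⟨x, y, hxy, hen, hy⟩ : ∃ x y : V, x ≠ y ∧ (en e = (x, y) ∨ en e = (y, x)) ∧
          y ∉ vs en B := by
        by_cases h1 : (en e).2 ∈ vs en B
        · refine ⟨(en e).2, (en e).1, fun h => hloop h.symm, Or.inr rfl, fun h2 => ?_⟩
          have h3 : ({(en e).1, (en e).2} : Finset V) ⊆ vs en A ∩ vs en B := by
            intro w hw
            rw [mem_insert, mem_singleton] at hw
            rw [mem_inter]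
            rcases hw with rfl | rfl
            · exact ⟨bl_mem_vs.2 ⟨e, he, Or.inl rfl⟩, h2⟩
            · exact ⟨bl_mem_vs.2 ⟨e, he, Or.inr rfl⟩, h1⟩
          have h4 := card_le_card h3
          rw [card_pair hloop] at h4
          omega
        · exact ⟨(en e).1, (en e).2, hloop, Or.inl rfl, h1⟩
      have hxA : x ∈ vs en A := by
        rw [bl_mem_vs]
        rcases hen with h | h
        · exact ⟨e, he, Or.inl (by rw [h])⟩
        · exact ⟨e, he, Or.inr (by rw [h])⟩
      have ih2 := ih (A.erase e) hA' (red x y en) B hdis (by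
        refine (card_le_card ?_).trans hcard
        intro w hw
        rw [mem_inter, bl_vs_red_eq hy] at hw
        rw [mem_inter]
        refine ⟨?_, hw.2⟩
        rcases bl_vs_red hw.1 with h | h
        · exact hsub h
        · rw [h]; exact hxA)
      have hB : F q (red x y en) (fun _ => v) ∅ B = F q en (fun _ => v) ∅ B := by
        apply SubNet.F_congr
        · intro f hf
          rw [empty_union] at hf
          exact bl_red_eq hy f hf
        · intro _ _
          rfl
      rw [hB, ← F_con hxy hen, ← F_con hxy hen] at ih2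
      have ih3 : F q en (fun _ => v) (insert e ∅) (A.erase e ∪ B) * q ^ Fintype.card V =
          F q en (fun _ => v) (insert e ∅) (A.erase e) * F q en (fun _ => v) ∅ B := by
        apply mul_left_cancel₀ hq
        linear_combination ih2
      linear_combination ih1 + v * ih3

theorem bl_block {en : E → V × V} {q v : ℝ} (hq : q ≠ 0) (hv : v ≠ -1) (hqv : q + v ≠ 0) :
    ∀ (n : ℕ) (S : Finset E), S.card = n → F q en (fun _ => v) ∅ S = 0 →
      ∃ A ⊆ S, TC en A ∧ F q en (fun _ => v) ∅ A = 0 := by
  intro n
  induction n using Nat.strong_induction_on with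
  | _ n ih =>
    intro S hS h
    by_cases hT : TC en S
    · exact ⟨S, subset_rfl, hT, h⟩
    have hv1 : 1 + v ≠ 0 := fun h => hv (by linarith)
    by_cases h2 : 2 ≤ S.card
    · have h3 : ∃ A ⊆ S, A.Nonempty ∧ A ≠ S ∧ (vs en A ∩ vs en (S \ A)).card < 2 := by
        by_contra hcon
        push Not at hcon
        exact hT ⟨h2, fun A hA hne hAS => hcon A hA hne hAS⟩
      obtain ⟨A, hA, hne, hAS, hc⟩ := h3
      have h4 := bl_mult (v := v) hq A.card A rfl en (S \ A) disjoint_sdiff (by omega)
      rw [union_sdiff_of_subset hA, h, zero_mul] at h4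
      have hA1 : A.card < n := by
        rw [← hS]
        exact card_lt_card (Finset.ssubset_iff_subset_ne.2 ⟨hA, hAS⟩)
      have hA2 : (S \ A).card < n := by
        rw [← hS]
        apply card_lt_card
        rw [Finset.ssubset_iff_subset_ne]
        refine ⟨sdiff_subset, fun hc2 => ?_⟩
        obtain ⟨e, he⟩ := hne
        have : e ∈ S \ A := by rw [hc2]; exact hA he
        exact (mem_sdiff.1 this).2 he
      rcases mul_eq_zero.1 h4.symm with h5 | h5
      · obtain ⟨B, hB, hB2⟩ := ih A.card hA1 A rfl h5
        exact ⟨B, hB.trans hA, hB2⟩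
      · obtain ⟨B, hB, hB2⟩ := ih (S \ A).card hA2 (S \ A) rfl h5
        exact ⟨B, hB.trans sdiff_subset, hB2⟩
    · exfalso
      have hcases : S.card = 0 ∨ S.card = 1 := by omega
      rcases hcases with hc | hc
      · rw [card_eq_zero] at hc
        subst hc
        rw [SubNet.F_empty] at h
        exact pow_ne_zero _ hq h
      · obtain ⟨e, rfl⟩ := card_eq_one.1 hc
        rw [F_split (mem_singleton_self e), erase_singleton, SubNet.F_empty] at h
        by_cases hloop : (en e).1 = (en e).2
        · have hl : en e = ((en e).1, (en e).1) := by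
            conv_rhs => rw [← Prod.mk.eta (p := en e)]
            rw [Prod.ext_iff]
            exact ⟨rfl, hloop.symm⟩
          rw [SubNet.F_loop hl, SubNet.F_empty] at h
          have : (1 + v) * q ^ kk en (∅ : Finset E) = 0 := by linear_combination h
          rcases mul_eq_zero.1 this with h6 | h6
          · exact hv1 h6
          · exact pow_ne_zero _ hq h6
        · have hen : en e = ((en e).1, (en e).2) ∨ en e = ((en e).2, (en e).1) := Or.inl rfl
          have h7 := F_con (q := q) (wt := fun _ : E => v) (T := ∅) (S := (∅ : Finset E)) hloop hen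
          rw [SubNet.F_empty, SubNet.F_empty] at h7
          rw [SubNet.F_empty] at h
          rw [kk_empty] at h h7
          have : (q + v) * q ^ Fintype.card V = 0 := by
            linear_combination q * h - v * h7
          rcases mul_eq_zero.1 this with h6 | h6
          · exact hqv h6
          · exact pow_ne_zero _ hq h6

end bl_

theorem exists_block {V E : Type} [Fintype V] [DecidableEq V] [DecidableEq E] {en : E → V × V}
    {S : Finset E} {q v : ℝ} (hq : q ≠ 0) (hv : v ≠ -1) (hqv : q + v ≠ 0)
    (h : F q en (fun _ => v) ∅ S = 0) :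
    ∃ A ⊆ S, TC en A ∧ F q en (fun _ => v) ∅ A = 0 :=
  bl_block hq hv hqv S.card S rfl h

end Pool.Agent.H194R2.MZ
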