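import Pool.Agent.H194R2.JS.Final

/-!
# The closure of the zeros of the dichromatic polynomial has measure zero in the zero-free
regions: definitions
-/

namespace Pool.Agent.H194R2.MZ

open Finset Pool.Agent.H194R2.JS

/-- a set of weights closed under series and parallel connection; `s` is the sign of `t / q` -/
structure GK (q s : ℝ) (I : Set ℝ) : Prop where
  q0 : q ≠ 0
  q1 : q ≠ 1
  s1 : s = 1 ∨ s = -1
  conv : I.OrdConnected
  sgn : ∀ t ∈ I, 0 < s * (t / q)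
  par : ∀ a ∈ I, ∀ b ∈ I, (1 + a) * (1 + b) - 1 ∈ I
  ser : ∀ a ∈ I, ∀ b ∈ I, a * b / (q + a + b) ∈ I
  den : ∀ a ∈ I, ∀ b ∈ I, 0 < s * ((q + a + b) / q)

/-- the polynomial with coefficients `n i j` -/
def PP (m : ℕ) (n : Fin (m + 1) → Fin (m + 1) → Fin (2 ^ m + 1)) (p : ℝ × ℝ) : ℝ :=
  ∑ i : Fin (m + 1), ∑ j : Fin (m + 1), ((n i j : ℕ) : ℝ) * p.1 ^ (m - (i : ℕ)) * p.2 ^ (j : ℕ)

/-- admissible coefficients -/
def Adm (m : ℕ) (n : Fin (m + 1) → Fin (m + 1) → Fin (2 ^ m + 1)) : Prop :=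
  (n 0 0 : ℕ) = 1 ∧ ∀ i, i ≠ 0 → (n i 0 : ℕ) = 0

end Pool.Agent.H194R2.MZ
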