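import Pool.Agent.H194R2.MZ.Defs

/-! General effective weights (module M1, helper128). -/

namespace Pool.Agent.H194R2.MZ

open Finset Pool.Agent.H194R2.JS

theorem gw_mediant {I : Set ℝ} (hI : I.OrdConnected) {k : ℕ} (hk : 1 ≤ k)
    {s c a1 b1 a2 b2 : ℝ} (hc : 0 < s * c)
    (h1 : 0 < s ^ k * a1) (h2 : 0 < s ^ (k - 1) * a2)
    (hw1 : b1 / a1 ∈ I) (hw2 : b2 / a2 ∈ I) :
    0 < s ^ k * (a1 + c * a2) ∧ (b1 + c * b2) / (a1 + c * a2) ∈ I := by
  obtain ⟨k, rfl⟩ : ∃ k', k = k' + 1 := ⟨k - 1, by omega⟩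
  simp only [Nat.add_sub_cancel] at h2
  have h3 : 0 < s ^ (k + 1) * (c * a2) := by
    have : s ^ (k + 1) * (c * a2) = (s * c) * (s ^ k * a2) := by ring
    rw [this]; exact mul_pos hc h2
  have h4 : 0 < s ^ (k + 1) * (a1 + c * a2) := by
    rw [mul_add]; exact add_pos h1 h3
  refine ⟨h4, ?_⟩
  have ha1 : a1 ≠ 0 := by rintro rfl; simp at h1
  have ha2 : a2 ≠ 0 := by rintro rfl; simp at h2
  have hs0 : s ^ (k + 1) ≠ 0 := by rintro h; rw [h] at h1; simp at h1
  obtain ⟨w1, hw1d⟩ : ∃ w, w = b1 / a1 := ⟨_, rfl⟩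
  obtain ⟨w2, hw2d⟩ : ∃ w, w = b2 / a2 := ⟨_, rfl⟩
  have hb1 : b1 = w1 * a1 := by rw [hw1d]; field_simp
  have hb2 : b2 = w2 * a2 := by rw [hw2d]; field_simp
  rw [← hw1d] at hw1
  rw [← hw2d] at hw2
  have he : (b1 + c * b2) / (a1 + c * a2)
      = (w1 * (s ^ (k + 1) * a1) + w2 * (s ^ (k + 1) * (c * a2)))
        / (s ^ (k + 1) * a1 + s ^ (k + 1) * (c * a2)) := by
    rw [← mul_div_mul_left (b1 + c * b2) (a1 + c * a2) hs0, hb1, hb2]
    congr 1
    · ring
    · ring
  rw [he]
  generalize s ^ (k + 1) * a1 = A at *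
  generalize s ^ (k + 1) * (c * a2) = B at *
  have hAB : 0 < A + B := add_pos h1 h3
  rcases le_total w1 w2 with hw | hw
  · refine hI.out hw1 hw2 ⟨?_, ?_⟩
    · rw [le_div_iff₀ hAB]; nlinarith
    · rw [div_le_iff₀ hAB]; nlinarith
  · refine hI.out hw2 hw1 ⟨?_, ?_⟩
    · rw [le_div_iff₀ hAB]; nlinarith
    · rw [div_le_iff₀ hAB]; nlinarith

section W

variable {V E : Type} [Fintype V] [DecidableEq V] [DecidableEq E]

theorem gw_aux {q s : ℝ} {I : Set ℝ} {r : E} (hK : GK q s I) :
    ∀ (n : ℕ) (en : E → V × V) (S : Finset E) (wt : E → ℝ),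
    S.card = n → TC en S → r ∈ S → (∀ e ∈ S, e ≠ r → wt e ∈ I) →
    0 < s ^ (vs en S).card * (aa q en wt r S / q ^ (Fintype.card V - 1)) ∧
      ww q en wt r S ∈ I := by
  intro n
  induction n using Nat.strong_induction_on with
  | _ n ih =>
  intro en S wt hn hT hr hw
  have hq0 : q ≠ 0 := hK.q0
  have hs2 : s ^ 2 = 1 := by rcases hK.s1 with h | h <;> rw [h] <;> norm_num
  have hQ : q ^ (Fintype.card V - 1) ≠ 0 := pow_ne_zero _ hq0
  have h2 : 2 ≤ S.card := hT.1
  rcases Nat.lt_or_ge S.card 3 with h3 | h3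
  · -- two edges
    have hc : (S.erase r).card = 1 := by rw [card_erase_of_mem hr]; omega
    obtain ⟨f, hf⟩ := card_eq_one.1 hc
    have hS : S = {r, f} := by rw [← insert_erase hr, hf]
    have hfS : f ∈ S := by rw [hS]; simp
    have hfr : f ≠ r := by
      intro h
      have : f ∈ S.erase r := by rw [hf]; simp
      rw [h] at this; simp at this
    obtain ⟨h4, h5, h6⟩ := small2 hq0 hK.q1 (wt := wt) hT hfr hS
    constructor
    · rw [h6, h4, div_self hQ, hs2]; norm_num
    · unfold ww
      rw [h5, h4, mul_comm, mul_div_assoc, div_self hQ, mul_one]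
      exact hw f hfS hfr
  rcases Nat.lt_or_ge S.card 4 with h4 | h4
  · -- three edges
    have hc : (S.erase r).card = 2 := by rw [card_erase_of_mem hr]; omega
    obtain ⟨f, g, hfg, hf⟩ := card_eq_two.1 hc
    have hS : S = {r, f, g} := by rw [← insert_erase hr, hf]
    have hfS : f ∈ S := by rw [hS]; simp
    have hgS : g ∈ S := by rw [hS]; simp
    have hfr : f ≠ r := by
      intro h
      have : f ∈ S.erase r := by rw [hf]; simp
      rw [h] at this; simp at this
    have hgr : g ≠ r := by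
      intro h
      have : g ∈ S.erase r := by rw [hf]; simp
      rw [h] at this; simp at this
    have hwf := hw f hfS hfr
    have hwg := hw g hgS hgr
    rcases small3 hq0 hK.q1 (wt := wt) hT hfr hgr hfg hS with ⟨e1, e2, e3⟩ | ⟨e1, e2, e3⟩
    · constructor
      · rw [e3, e1, div_self hQ, hs2]; norm_num
      · unfold ww
        rw [e2, e1, mul_comm, mul_div_assoc, div_self hQ, mul_one]
        exact hK.par _ hwf _ hwg
    · have hV : 3 ≤ Fintype.card V := by rw [← e3]; exact card_le_univ _
      have hQ2 : q ^ (Fintype.card V - 1) = q ^ (Fintype.card V - 2) * q := by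
        rw [← pow_succ]; congr 1; omega
      have hQ3 : q ^ (Fintype.card V - 2) ≠ 0 := pow_ne_zero _ hq0
      constructor
      · rw [e3, e1, hQ2, mul_div_mul_left _ _ hQ3]
        have : s ^ 3 = s := by
          have : s ^ 3 = s ^ 2 * s := by ring
          rw [this, hs2, one_mul]
        rw [this]
        exact hK.den _ hwf _ hwg
      · unfold ww
        rw [e2, e1, mul_div_mul_left _ _ hQ3]
        exact hK.ser _ hwf _ hwg
  by_cases hN : N2 en S
  · -- no 2-separation
    obtain ⟨e, he, her⟩ : ∃ e ∈ S, e ≠ r := exists_mem_ne (by omega) r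
    have hen : en e = ((en e).1, (en e).2) ∨ en e = ((en e).2, (en e).1) := Or.inl rfl
    obtain ⟨hd1, hd2⟩ := tc_del hT hN h4 he
    obtain ⟨hxy, hc1, hc2⟩ := tc_con hT hN h4 he hen
    have hr1 : r ∈ S.erase e := mem_erase.2 ⟨her.symm, hr⟩
    have hlt : (S.erase e).card < n := by rw [card_erase_of_mem he]; omega
    have i1 := ih _ hlt en (S.erase e) wt rfl hd1 hr1 (fun f hf => hw f (mem_of_mem_erase hf))
    have i2 := ih _ hlt (red (en e).1 (en e).2 en) (S.erase e) wt rfl hc1 hr1
      (fun f hf => hw f (mem_of_mem_erase hf))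
    rw [hd2] at i1
    have hy : (en e).2 ∈ vs en S := (w_mem_vs he hen).2
    rw [hc2, card_erase_of_mem hy] at i2
    have hk : 1 ≤ (vs en S).card := card_pos.2 ⟨_, hy⟩
    have j1 := i1.2
    have j2 := i2.2
    unfold ww at j1 j2
    rw [← div_div_div_cancel_right₀ hQ] at j1 j2
    have := gw_mediant hK.conv hk (hK.sgn _ (hw e he her)) i1.1 i2.1 j1 j2
    rw [mul_div_assoc', mul_div_assoc', ← add_div, ← add_div,
      ← aa_dc hq0 he her hxy hen, ← bb_dc hq0 he her hxy hen,
      div_div_div_cancel_right₀ hQ] at this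
    exact this
  · obtain ⟨A, hA, hrA, hA2, hB2, x, y, hxy, hbd⟩ := exists_sep hT hN hr
    have hA0 : A.Nonempty := card_pos.1 (by omega)
    have hB0 : (S \ A).Nonempty := card_pos.1 (by omega)
    obtain ⟨g, hg⟩ := hA0
    have hgS := hA hg
    have hgr : g ≠ r := fun h => hrA (h ▸ hg)
    obtain ⟨t1, t2⟩ := w_halves (r := r) hT hA ⟨g, hg⟩ hr hrA hbd
    obtain ⟨t3, t4⟩ := tc_comp hT hA ⟨g, hg⟩ hB0 hbd hg
    have hcS : A.card + (S \ A).card = S.card := by
      rw [add_comm]; exact card_sdiff_add_card_eq_card hA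
    have i1 := ih (insert r A).card (by rw [card_insert_of_notMem hrA]; omega)
      (Function.update en r (x, y)) (insert r A) wt rfl t1 (mem_insert_self _ _)
      (fun f hf hfr => hw f (by
        rcases mem_insert.1 hf with h | h
        · exact absurd h hfr
        · exact hA h) hfr)
    have hgB : g ∉ S \ A := by simp [hg]
    have hrB : r ∈ S \ A := by simp [hr, hrA]
    have i2 := ih (insert g (S \ A)).card (by rw [card_insert_of_notMem hgB]; omega)
      (Function.update en g (x, y)) (insert g (S \ A))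
      (Function.update wt g (ww q (Function.update en r (x, y)) wt r (insert r A)))
      rfl t3 (mem_insert_of_mem hrB)
      (fun f hf hfr => by
        by_cases hfg : f = g
        · subst hfg; simpa using i1.2
        · rw [Function.update_of_ne hfg]
          rcases mem_insert.1 hf with h | h
          · exact absurd h hfg
          · exact hw f (mem_sdiff.1 h).1 hfr)
    rw [t2] at i1
    rw [t4] at i2
    have hne : aa q (Function.update en r (x, y)) wt r (insert r A) ≠ 0 := by
      intro h; rw [h] at i1; simp at i1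
    obtain ⟨s1, s2⟩ := subst_net hq0 hK.q1 (wt := wt) hA hr hrA hxy hbd.subset hg hne
    have hvs : (vs en S).card + 2 = (vs en A).card + (vs en (S \ A)).card := by
      have h1 : vs en S = vs en A ∪ vs en (S \ A) := by
        ext v
        simp only [vs, mem_union, mem_image, mem_sdiff]
        constructor
        · rintro (⟨e, he, h⟩ | ⟨e, he, h⟩)
          · by_cases heA : e ∈ A
            · exact Or.inl (Or.inl ⟨e, heA, h⟩)
            · exact Or.inr (Or.inl ⟨e, ⟨he, heA⟩, h⟩)
          · by_cases heA : e ∈ A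
            · exact Or.inl (Or.inr ⟨e, heA, h⟩)
            · exact Or.inr (Or.inr ⟨e, ⟨he, heA⟩, h⟩)
        · rintro ((⟨e, he, h⟩ | ⟨e, he, h⟩) | (⟨e, he, h⟩ | ⟨e, he, h⟩))
          · exact Or.inl ⟨e, hA he, h⟩
          · exact Or.inr ⟨e, hA he, h⟩
          · exact Or.inl ⟨e, he.1, h⟩
          · exact Or.inr ⟨e, he.1, h⟩
      have h2 := card_union_add_card_inter (vs en A) (vs en (S \ A))
      rw [← h1, hbd, card_pair hxy] at h2
      exact h2
    have hsgn : s ^ (vs en S).card
        = s ^ (vs en A).card * s ^ (vs en (S \ A)).card := by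
      rw [← pow_add, ← hvs, pow_add, hs2, mul_one]
    constructor
    · rw [hsgn, s1]
      have : s ^ (vs en A).card * s ^ (vs en (S \ A)).card *
          (aa q (Function.update en r (x, y)) wt r (insert r A) / q ^ (Fintype.card V - 1) *
            aa q (Function.update en g (x, y)) (Function.update wt g
              (ww q (Function.update en r (x, y)) wt r (insert r A))) r (insert g (S \ A))
              / q ^ (Fintype.card V - 1))
          = (s ^ (vs en A).card * (aa q (Function.update en r (x, y)) wt r (insert r A)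
              / q ^ (Fintype.card V - 1)))
            * (s ^ (vs en (S \ A)).card * (aa q (Function.update en g (x, y))
              (Function.update wt g (ww q (Function.update en r (x, y)) wt r (insert r A))) r
              (insert g (S \ A)) / q ^ (Fintype.card V - 1))) := by ring
      rw [this]
      exact mul_pos i1.1 i2.1
    · have hc0 : aa q (Function.update en r (x, y)) wt r (insert r A)
          / q ^ (Fintype.card V - 1) ≠ 0 := div_ne_zero hne hQ
      have : ww q en wt r S = ww q (Function.update en g (x, y)) (Function.update wt g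
              (ww q (Function.update en r (x, y)) wt r (insert r A))) r (insert g (S \ A)) := by
        conv_lhs => unfold ww
        rw [s1, s2, mul_div_mul_left _ _ hc0]
        rfl
      rw [this]
      exact i2.2

end W

theorem lemG {V E : Type} [Fintype V] [DecidableEq V] [DecidableEq E] {en : E → V × V}
    {S : Finset E} {q s : ℝ} {I : Set ℝ} {wt : E → ℝ} {r : E} (hK : GK q s I) (hT : TC en S)
    (hr : r ∈ S) (hw : ∀ e ∈ S, e ≠ r → wt e ∈ I) :
    0 < s ^ (vs en S).card * (aa q en wt r S / q ^ (Fintype.card V - 1)) ∧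
      ww q en wt r S ∈ I :=
  gw_aux hK _ en S wt rfl hT hr hw

theorem gw_one {q : ℝ} (hq : q < 0) : GK q 1 (Set.Ioo (-2) 0) where
  q0 := hq.ne
  q1 := by linarith
  s1 := Or.inl rfl
  conv := Set.ordConnected_Ioo
  sgn := by
    rintro t ⟨_, h⟩
    rw [one_mul]
    exact div_pos_of_neg_of_neg h hq
  par := by
    rintro a ⟨ha, ha'⟩ b ⟨hb, hb'⟩
    constructor
    · nlinarith [mul_pos (sub_pos.2 ha) (sub_pos.2 hb), mul_pos (neg_pos.2 ha') (neg_pos.2 hb')]
    · nlinarith [mul_pos (sub_pos.2 ha) (neg_pos.2 hb'), mul_pos (sub_pos.2 hb) (neg_pos.2 ha')]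
  ser := by
    rintro a ⟨ha, ha'⟩ b ⟨hb, hb'⟩
    have h1 : q + a + b < 0 := by linarith
    have h2 : 0 < a * b := mul_pos_of_neg_of_neg ha' hb'
    constructor
    · rw [lt_div_iff_of_neg h1]
      nlinarith
    · exact div_neg_of_pos_of_neg h2 h1
  den := by
    rintro a ⟨ha, ha'⟩ b ⟨hb, hb'⟩
    rw [one_mul]
    exact div_pos_of_neg_of_neg (by linarith) hq

theorem gw_two {q : ℝ} (hq : q < 0) : GK q (-1) (Set.Ioi (-q / 2)) where
  q0 := hq.ne
  q1 := by linarith
  s1 := Or.inr rfl
  conv := Set.ordConnected_Ioi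
  sgn := by
    intro t ht
    have ht' : -q / 2 < t := ht
    have : t / q < 0 := div_neg_of_pos_of_neg (by linarith) hq
    linarith
  par := by
    intro a ha b hb
    have ha' : -q / 2 < a := ha
    have hb' : -q / 2 < b := hb
    show -q / 2 < (1 + a) * (1 + b) - 1
    nlinarith [mul_pos (show 0 < a by linarith) (show 0 < b by linarith)]
  ser := by
    intro a ha b hb
    have ha' : -q / 2 < a := ha
    have hb' : -q / 2 < b := hb
    have h1 : 0 < q + a + b := by linarith
    show -q / 2 < a * b / (q + a + b)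
    rw [lt_div_iff₀ h1]
    nlinarith [mul_pos (show 0 < 2 * a + q by linarith) (show 0 < 2 * b + q by linarith)]
  den := by
    intro a ha b hb
    have ha' : -q / 2 < a := ha
    have hb' : -q / 2 < b := hb
    have h1 : 0 < q + a + b := by linarith
    have : (q + a + b) / q < 0 := div_neg_of_pos_of_neg h1 hq
    linarith

theorem gw_F_ne {V E : Type} [Fintype V] [DecidableEq V] [DecidableEq E] {en : E → V × V}
    {S : Finset E} {q v s : ℝ} {I : Set ℝ} (hT : TC en S) (hK : GK q s I) (hv : v ∈ I)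
    (h : ∀ w ∈ I, (1 + v) * (1 + w) ≠ 1 - q) :
    F q en (fun _ => v) ∅ S ≠ 0 := by
  obtain ⟨r, hr⟩ : S.Nonempty := card_pos.1 (by have := hT.1; omega)
  obtain ⟨h1, h2⟩ := lemG (wt := fun _ => v) hK hT hr (fun _ _ _ => hv)
  have ha : aa q en (fun _ => v) r S ≠ 0 := by
    intro h0
    rw [h0] at h1
    simp at h1
  have hb : bb q en (fun _ => v) r S
      = ww q en (fun _ => v) r S * aa q en (fun _ => v) r S := by
    unfold ww
    rw [div_mul_cancel₀ _ ha]
  have h3 := h _ h2
  rw [F_eq hK.q1 hr, hb]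
  have h4 : q * aa q en (fun _ => v) r S
        + ww q en (fun _ => v) r S * aa q en (fun _ => v) r S
        + v * (aa q en (fun _ => v) r S
          + ww q en (fun _ => v) r S * aa q en (fun _ => v) r S)
      = aa q en (fun _ => v) r S * ((1 + v) * (1 + ww q en (fun _ => v) r S) - (1 - q)) := by
    ring
  rw [h4]
  exact mul_ne_zero ha (sub_ne_zero.2 h3)

theorem nz_one {V E : Type} [Fintype V] [DecidableEq V] [DecidableEq E] {en : E → V × V}
    {S : Finset E} (hT : TC en S) {q v : ℝ} (hq : q < 0) (h1 : -2 < v) (h2 : v < 0) :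
    F q en (fun _ => v) ∅ S ≠ 0 := by
  refine gw_F_ne hT (gw_one hq) ⟨h1, h2⟩ ?_
  rintro w ⟨hw1, hw2⟩ h
  nlinarith [mul_pos (sub_pos.2 h1) (neg_pos.2 hw2), mul_pos (sub_pos.2 hw1) (neg_pos.2 h2)]

theorem nz_two {V E : Type} [Fintype V] [DecidableEq V] [DecidableEq E] {en : E → V × V}
    {S : Finset E} (hT : TC en S) {q v : ℝ} (hq : q < 0) (h1 : -q / 2 < v) :
    F q en (fun _ => v) ∅ S ≠ 0 := by
  refine gw_F_ne hT (gw_two hq) h1 ?_
  intro w hw h
  have hw' : -q / 2 < w := hw
  nlinarith [mul_pos (show 0 < v by linarith) (show 0 < w by linarith)]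

end Pool.Agent.H194R2.MZ
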