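import Pool.Agent.H194R2.MZ.Defs

namespace Pool.Agent.H194R2.MZ

open Finset Pool.Agent.H194R2.JS

/-- a cubic curve and its dual, and lines, are null sets -/
theorem curve_null (f : ℝ → ℝ → ℝ) (hf : Continuous fun p : ℝ × ℝ => f p.1 p.2)
    (h : ∀ q, q ≠ 0 → {v | f q v = 0}.Finite) :
    IsClosed {p : ℝ × ℝ | f p.1 p.2 = 0} ∧
      MeasureTheory.volume {p : ℝ × ℝ | f p.1 p.2 = 0} = 0 := by
  have hc : IsClosed {p : ℝ × ℝ | f p.1 p.2 = 0} := isClosed_eq hf continuous_const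
  refine ⟨hc, ?_⟩
  rw [MeasureTheory.Measure.volume_eq_prod, MeasureTheory.Measure.measure_prod_null
    hc.measurableSet]
  have h0 : ∀ᵐ q : ℝ, q ≠ 0 := by
    rw [MeasureTheory.ae_iff]
    simp
  filter_upwards [h0] with q hq
  exact (h q hq).measure_zero _

theorem MZ5b_cont {m : ℕ} (n : Fin (m + 1) → Fin (m + 1) → Fin (2 ^ m + 1)) :
    Continuous fun p : ℝ × ℝ => PP m n (p.1, p.2) := by
  unfold PP
  fun_prop

theorem MZ5b_fin {m : ℕ} {n : Fin (m + 1) → Fin (m + 1) → Fin (2 ^ m + 1)} (h : Adm m n)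
    (q : ℝ) (hq : q ≠ 0) : {v : ℝ | PP m n (q, v) = 0}.Finite := by
  let P : Polynomial ℝ := ∑ i : Fin (m + 1), ∑ j : Fin (m + 1),
    Polynomial.C (((n i j : ℕ) : ℝ) * q ^ (m - (i : ℕ))) * Polynomial.X ^ (j : ℕ)
  have hev : ∀ v, P.eval v = PP m n (q, v) := by
    intro v
    simp only [P, PP, Polynomial.eval_finset_sum, Polynomial.eval_mul, Polynomial.eval_C,
      Polynomial.eval_pow, Polynomial.eval_X]
  have h0 : P.eval 0 = q ^ m := by
    rw [hev]
    unfold PP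
    have h1 : ∀ i : Fin (m + 1), ∑ j : Fin (m + 1),
        ((n i j : ℕ) : ℝ) * (q, (0 : ℝ)).1 ^ (m - (i : ℕ)) * (q, (0 : ℝ)).2 ^ (j : ℕ) =
        ((n i 0 : ℕ) : ℝ) * q ^ (m - (i : ℕ)) := by
      intro i
      rw [Finset.sum_eq_single 0]
      · simp
      · intro j _ hj
        have : (j : ℕ) ≠ 0 := fun h => hj (Fin.ext h)
        simp [this]
      · simp
    rw [Finset.sum_congr rfl fun i _ => h1 i, Finset.sum_eq_single 0]
    · simp [h.1]
    · intro i _ hi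
      simp [h.2 i hi]
    · simp
  have hP : P ≠ 0 := by
    intro hP
    rw [hP, Polynomial.eval_zero] at h0
    exact pow_ne_zero m hq h0.symm
  have hfin := Polynomial.finite_setOf_isRoot hP
  refine hfin.subset fun v hv => ?_
  show P.eval v = 0
  rw [hev]
  exact hv

theorem pp_null {m : ℕ} {n : Fin (m + 1) → Fin (m + 1) → Fin (2 ^ m + 1)} (h : Adm m n) :
    IsClosed {p : ℝ × ℝ | PP m n p = 0} ∧
      MeasureTheory.volume {p : ℝ × ℝ | PP m n p = 0} = 0 :=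
  curve_null (fun q v => PP m n (q, v)) (MZ5b_cont n) (MZ5b_fin h)

end Pool.Agent.H194R2.MZ
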