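import Pool.Agent.H194R2.MZ.Defs

/-! Finitely many polynomials (helper143). -/

namespace Pool.Agent.H194R2.MZ

open Finset Pool.Agent.H194R2.JS

section

variable {V E : Type} [Fintype V] [DecidableEq V] [DecidableEq E]

omit [DecidableEq V] [DecidableEq E] in
theorem po_kk_le (en : E → V × V) (A : Finset E) : kk en A ≤ Fintype.card V := by
  unfold kk
  rw [← Nat.card_eq_fintype_card]
  exact Nat.card_le_card_of_surjective (Quot.mk _) Quot.mk_surjective

omit [DecidableEq V] in
theorem po_kk_insert (en : E → V × V) (A : Finset E) (e : E) :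
    kk en A ≤ kk en (insert e A) + 1 := by
  classical
  set r1 : V → V → Prop := fun u v => ∃ f ∈ A, en f = (u, v) with hr1
  set r2 : V → V → Prop := fun u v => ∃ f ∈ insert e A, en f = (u, v) with hr2
  have hfin : Finite (Quot r2) := Quot.finite _
  have h12 : ∀ u v, r1 u v → r2 u v := by
    rintro u v ⟨f, hf, hfe⟩
    exact ⟨f, mem_insert_of_mem hf, hfe⟩
  set x : V := (en e).1 with hx
  set y : V := (en e).2 with hy
  -- the projection
  let pr : Quot r1 → Quot r2 := Quot.map id h12
  let ph : Quot r2 → Quot r1 := Quot.lift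
    (fun v => if Quot.mk r1 v = Quot.mk r1 x then Quot.mk r1 y else Quot.mk r1 v) (by
      rintro u v ⟨f, hf, hfe⟩
      rcases mem_insert.1 hf with h | h
      · subst h
        have hu : u = x := by rw [hx, hfe]
        have hv : v = y := by rw [hy, hfe]
        rw [hu, hv, if_pos rfl]
        split_ifs <;> rfl
      · have : Quot.mk r1 u = Quot.mk r1 v := Quot.sound ⟨f, h, hfe⟩
        simp only [this])
  have hph : ∀ c : Quot r1, c ≠ Quot.mk r1 x → ph (pr c) = c := by
    intro c hc
    induction c using Quot.ind with
    | mk v =>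
      change (if Quot.mk r1 (id v) = Quot.mk r1 x then Quot.mk r1 y else Quot.mk r1 (id v)) = _
      simp only [id]
      rw [if_neg hc]
  let g : Quot r1 → Option (Quot r2) := fun c => if c = Quot.mk r1 x then none else some (pr c)
  have hg : Function.Injective g := by
    intro c1 c2 h
    by_cases h1 : c1 = Quot.mk r1 x
    · by_cases h2 : c2 = Quot.mk r1 x
      · rw [h1, h2]
      · simp only [g] at h
        rw [if_pos h1, if_neg h2] at h
        simp at h
    · by_cases h2 : c2 = Quot.mk r1 x
      · simp only [g] at h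
        rw [if_neg h1, if_pos h2] at h
        simp at h
      · simp only [g] at h
        rw [if_neg h1, if_neg h2] at h
        have h' : pr c1 = pr c2 := by simpa using h
        rw [← hph c1 h1, ← hph c2 h2, h']
  have hc := Nat.card_le_card_of_injective g hg
  rw [Finite.card_option] at hc
  exact hc

omit [DecidableEq V] in
theorem po_card_le (en : E → V × V) (A : Finset E) : Fintype.card V ≤ kk en A + A.card := by
  induction A using Finset.induction_on with
  | empty => rw [kk_empty]; simp
  | insert e A he ih =>
    rw [card_insert_of_notMem he]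
    have := po_kk_insert en A e
    omega

end

/-- finitely many polynomials -/
theorem small_poly {V E : Type} [Fintype V] [DecidableEq V] [DecidableEq E] {en : E → V × V}
    {S : Finset E} {m : ℕ} (hT : TC en S) (hS : S.card ≤ m) {q v : ℝ} (hq : q ≠ 0)
    (h : F q en (fun _ => v) ∅ S = 0) : ∃ n, Adm m n ∧ PP m n (q, v) = 0 := by
  classical
  set r : Finset E → ℕ := fun A => Fintype.card V - kk en A with hr
  set c : ℕ → ℕ → ℕ := fun i j => (S.powerset.filter (fun A => r A = i ∧ A.card = j)).card with hc
  have hcle : ∀ i j, c i j ≤ 2 ^ m := by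
    intro i j
    calc c i j ≤ S.powerset.card := card_filter_le _ _
      _ = 2 ^ S.card := card_powerset S
      _ ≤ 2 ^ m := Nat.pow_le_pow_right (by norm_num) hS
  have hrle : ∀ A ∈ S.powerset, r A ≤ m ∧ A.card ≤ m := by
    intro A hA
    have h1 := po_card_le en A
    have h2 : A.card ≤ S.card := card_le_card (mem_powerset.1 hA)
    simp only [hr]
    omega
  refine ⟨fun i j => ⟨c i j, Nat.lt_succ_of_le (hcle i j)⟩, ⟨?_, ?_⟩, ?_⟩
  · change c 0 0 = 1
    have : S.powerset.filter (fun A => r A = 0 ∧ A.card = 0) = {∅} := by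
      ext A
      simp only [mem_filter, mem_powerset, mem_singleton, card_eq_zero]
      constructor
      · rintro ⟨_, _, h⟩
        exact h
      · rintro rfl
        refine ⟨empty_subset _, ?_, rfl⟩
        simp [hr, kk_empty]
    simp only [hc, this, card_singleton]
  · intro i hi
    change c i 0 = 0
    have : S.powerset.filter (fun A => r A = (i : ℕ) ∧ A.card = 0) = ∅ := by
      ext A
      simp only [mem_filter, mem_powerset, card_eq_zero, notMem_empty, iff_false, not_and]
      rintro _ h1 rfl
      apply hi
      have h2 : r ∅ = 0 := by simp [hr, kk_empty]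
      rw [h2] at h1
      exact Fin.ext (by simpa using h1.symm)
    simp only [hc, this, card_empty]
  · have key : PP m (fun i j => ⟨c i j, Nat.lt_succ_of_le (hcle i j)⟩) (q, v) =
        ∑ A ∈ S.powerset, q ^ (m - r A) * v ^ A.card := by
      unfold PP
      have e1 : ∀ i j : Fin (m + 1), ((c i j : ℕ) : ℝ) * q ^ (m - (i : ℕ)) * v ^ (j : ℕ) =
          ∑ A ∈ S.powerset, if r A = (i : ℕ) ∧ A.card = (j : ℕ) then
            q ^ (m - (i : ℕ)) * v ^ (j : ℕ) else 0 := by
        intro i j
        rw [← sum_filter, sum_const, nsmul_eq_mul, mul_assoc]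
      simp only [e1]
      simp only [sum_comm (s := (univ : Finset (Fin (m + 1)))) (t := S.powerset)]
      refine sum_congr rfl fun A hA => ?_
      obtain ⟨h1, h2⟩ := hrle A hA
      rw [sum_eq_single (⟨r A, Nat.lt_succ_of_le h1⟩ : Fin (m + 1))]
      · rw [sum_eq_single (⟨A.card, Nat.lt_succ_of_le h2⟩ : Fin (m + 1))]
        · rw [if_pos ⟨rfl, rfl⟩]
        · intro j _ hj
          rw [if_neg]
          rintro ⟨_, h4⟩
          exact hj (Fin.ext h4.symm)
        · simp
      · intro i _ hi
        refine sum_eq_zero fun j _ => ?_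
        rw [if_neg]
        rintro ⟨h3, _⟩
        exact hi (Fin.ext h3.symm)
      · simp
    have key2 : q ^ m * F q en (fun _ => v) ∅ S =
        q ^ Fintype.card V * ∑ A ∈ S.powerset, q ^ (m - r A) * v ^ A.card := by
      unfold F
      rw [mul_sum, mul_sum]
      refine sum_congr rfl fun A hA => ?_
      obtain ⟨h1, _⟩ := hrle A hA
      have h3 := po_kk_le en A
      rw [empty_union, prod_const, ← mul_assoc, ← mul_assoc, ← pow_add, ← pow_add]
      congr 2
      simp only [hr] at h1 ⊢
      omega
    rw [key]
    rw [h, mul_zero] at key2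
    rcases mul_eq_zero.1 key2.symm with h0 | h0
    · exact absurd h0 (pow_ne_zero _ hq)
    · exact h0

end Pool.Agent.H194R2.MZ
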