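import Pool.Agent.H194R2.MZ.Defs

/-! Uniform dynamics (module M2, helper128); adapted from JS/Dyn.lean (helper496). -/

namespace Pool.Agent.H194R2.MZ

open Finset Pool.Agent.H194R2.JS Filter Topology
open Pool.Agent.H194R2.JS.DynAux

/-- the explicit uniform step -/
noncomputable def uEta (q ka kb D : ℝ) : ℝ :=
  min (min ((kb - 1) * (1 + D)) ((kb - 1) * (D + q)))
    (min ((D ^ 2 - (ka - 1) * D - q * ka) / 2)
      (min (ka * (ka - 1) ^ 2 + (ka - 1) * (ka - 1) - q) (ka * D ^ 2 + (ka - 1) * D - q)))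

section

variable {q ka kb : ℝ}

/-- uniform progress -/
theorem u_progress (h : KB q ka kb) {D : ℝ} (hD1 : D < -1) (hDq : D < -q)
    (hG : 0 < D ^ 2 - (ka - 1) * D - q * ka) (hF : 0 < ka * D ^ 2 + (ka - 1) * D - q) :
    0 < uEta q ka kb D ∧ ∀ A, ka - 1 ≤ A → A ≤ D →
      A + uEta q ka kb D ≤ ka * (1 + q / A) - 1 ∧ A + uEta q ka kb D ≤ kb * (1 + A) - 1 ∧
      q ≤ (A + uEta q ka kb D) * (ka * (1 + A) - 1) ∧
      q ≤ (A + uEta q ka kb D) * (kb * (1 + q / A) - 1) := by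
  obtain ⟨h0, he, h1, h2, h3, h4, h5⟩ := h
  -- the value at the left end
  have hFk : 0 < ka * (ka - 1) ^ 2 + (ka - 1) * (ka - 1) - q := by
    have h6 : (1 - ka) * (1 - kb) = q := by linarith
    have h7 : ka * (ka - 1) ^ 2 + (ka - 1) * (ka - 1) - q = (1 - ka) * (kb - ka ^ 2) := by
      rw [← h6]; ring
    rw [h7]
    exact mul_pos (by linarith) (by linarith)
  obtain ⟨η, hη⟩ : ∃ η, η = uEta q ka kb D := ⟨_, rfl⟩
  rw [← hη]
  unfold uEta at hη
  have e1 : η ≤ (kb - 1) * (1 + D) := hη.le.trans ((min_le_left _ _).trans (min_le_left _ _))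
  have e2 : η ≤ (kb - 1) * (D + q) := hη.le.trans ((min_le_left _ _).trans (min_le_right _ _))
  have e3 : η ≤ (D ^ 2 - (ka - 1) * D - q * ka) / 2 :=
    hη.le.trans ((min_le_right _ _).trans (min_le_left _ _))
  have e4 : η ≤ ka * (ka - 1) ^ 2 + (ka - 1) * (ka - 1) - q :=
    hη.le.trans ((min_le_right _ _).trans ((min_le_right _ _).trans (min_le_left _ _)))
  have e5 : η ≤ ka * D ^ 2 + (ka - 1) * D - q :=
    hη.le.trans ((min_le_right _ _).trans ((min_le_right _ _).trans (min_le_right _ _)))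
  have hη0 : 0 < η := by
    rw [hη]
    refine lt_min (lt_min ?_ ?_) (lt_min (by linarith) (lt_min hFk hF))
    · exact mul_pos_of_neg_of_neg (by linarith) (by linarith)
    · exact mul_pos_of_neg_of_neg (by linarith) (by linarith)
  refine ⟨hη0, fun A hA hAD => ?_⟩
  have hA0 : A < 0 := by linarith
  have hA2 : -2 < A := by linarith
  have hB0 : 0 < 1 + q / A := by
    have : -1 < q / A := by rw [lt_div_iff_of_neg hA0]; linarith
    linarith
  have hB1 : q / A < 0 := div_neg_of_pos_of_neg h0 hA0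
  refine ⟨?_, ?_, ?_, ?_⟩
  · -- a1
    have hAne : A ≠ 0 := hA0.ne
    have g1 : ka * (1 + q / A) - 1 - A = (A ^ 2 - (ka - 1) * A - q * ka) / (-A) := by
      field_simp; ring
    have g2 : D ^ 2 - (ka - 1) * D - q * ka ≤ A ^ 2 - (ka - 1) * A - q * ka := by
      have g21 : 0 ≤ (D - A) * ((ka - 1) - A - D) := mul_nonneg (by linarith) (by linarith)
      have g22 : (D - A) * ((ka - 1) - A - D)
        = (A ^ 2 - (ka - 1) * A - q * ka) - (D ^ 2 - (ka - 1) * D - q * ka) := by ring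
      linarith
    have g3 : (D ^ 2 - (ka - 1) * D - q * ka) / 2 ≤ (A ^ 2 - (ka - 1) * A - q * ka) / (-A) := by
      rw [div_le_div_iff₀ (by norm_num) (by linarith)]
      have g31 : (D ^ 2 - (ka - 1) * D - q * ka) * (-A) ≤ (D ^ 2 - (ka - 1) * D - q * ka) * 2 :=
        mul_le_mul_of_nonneg_left (by linarith) hG.le
      linarith
    linarith
  · have g1 : kb * (1 + A) - 1 - A = (kb - 1) * (1 + A) := by ring
    have g2 : (kb - 1) * (1 + D) ≤ (kb - 1) * (1 + A) := by nlinarith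
    linarith
  · -- a3
    have g1 : A * (ka * (1 + A) - 1) - q = ka * A ^ 2 + (ka - 1) * A - q := by ring
    have g2 : η ≤ ka * A ^ 2 + (ka - 1) * A - q := by
      rcases hA.eq_or_lt with h6 | h6
      · rw [← h6]; exact e4
      · -- concavity
        have hpos : 0 < D - (ka - 1) := by linarith
        have e6 : (D - (ka - 1)) * (ka * A ^ 2 + (ka - 1) * A - q)
            = (D - A) * (ka * (ka - 1) ^ 2 + (ka - 1) * (ka - 1) - q)
              + (A - (ka - 1)) * (ka * D ^ 2 + (ka - 1) * D - q)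
              + (-ka) * (A - (ka - 1)) * (D - A) * (D - (ka - 1)) := by ring
        have e7 : 0 ≤ (-ka) * (A - (ka - 1)) * (D - A) * (D - (ka - 1)) := by
          have a1 : 0 ≤ -ka := by linarith
          have a2 : 0 ≤ A - (ka - 1) := by linarith
          have a3 : 0 ≤ D - A := by linarith
          positivity
        have e8 : (D - A) * η ≤ (D - A) * (ka * (ka - 1) ^ 2 + (ka - 1) * (ka - 1) - q) :=
          mul_le_mul_of_nonneg_left e4 (by linarith)
        have e9 : (A - (ka - 1)) * η ≤ (A - (ka - 1)) * (ka * D ^ 2 + (ka - 1) * D - q) :=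
          mul_le_mul_of_nonneg_left e5 (by linarith)
        have e10 : (D - (ka - 1)) * η ≤ (D - (ka - 1)) * (ka * A ^ 2 + (ka - 1) * A - q) := by
          nlinarith
        exact le_of_mul_le_mul_left e10 hpos
    have g3 : 0 ≤ ka * (1 + A) := mul_nonneg_of_nonpos_of_nonpos h1 (by linarith)
    have g4 : η * (-1) ≤ η * (ka * (1 + A) - 1) := mul_le_mul_of_nonneg_left (by linarith) hη0.le
    have g5 : (A + η) * (ka * (1 + A) - 1)
      = A * (ka * (1 + A) - 1) + η * (ka * (1 + A) - 1) := by ring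
    rw [g5]
    linarith
  · -- a4
    have hAne : A ≠ 0 := hA0.ne
    have g1 : A * (kb * (1 + q / A) - 1) - q = (kb - 1) * (A + q) := by
      field_simp; ring
    have g2 : (kb - 1) * (D + q) ≤ (kb - 1) * (A + q) :=
      mul_le_mul_of_nonpos_left (by linarith) (by linarith)
    have g3 : 0 ≤ kb * (1 + q / A) := mul_nonneg h3.le hB0.le
    have g4 : η * (-1) ≤ η * (kb * (1 + q / A) - 1) :=
      mul_le_mul_of_nonneg_left (by linarith) hη0.le
    have g5 : (A + η) * (kb * (1 + q / A) - 1)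
      = A * (kb * (1 + q / A) - 1) + η * (kb * (1 + q / A) - 1) := by ring
    rw [g5]
    linarith

theorem u_sqrt (hq0 : 0 < q) {D : ℝ} (hD1 : D < -1) (hDq : D < -q) : D < -Real.sqrt q := by
  have hs0 : 0 ≤ Real.sqrt q := Real.sqrt_nonneg q
  have hs1 : Real.sqrt q * Real.sqrt q = q := Real.mul_self_sqrt hq0.le
  rcases le_or_gt (Real.sqrt q) 1 with h1 | h1
  · linarith
  · have : Real.sqrt q < q := by nlinarith
    linarith

/-- the chain of intervals with a prescribed step and a bound for the number of steps -/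
theorem u_chain (h : KB q ka kb) (hc : (kb - 1) ^ 2 ≤ q) {D : ℝ} (hD1 : D < -1) (hDq : D < -q)
    (hG : 0 < D ^ 2 - (ka - 1) * D - q * ka) (hF : 0 < ka * D ^ 2 + (ka - 1) * D - q)
    {km kp : ℝ} (e1 : ka - 1 = km) (e2 : kb - 1 = kp)
    (hgood : ∀ A, D < A → A < 0 → ∀ z ∈ Set.Icc A (q / A),
      ∀ v ∈ Set.Icc km kp, Good q v z)
    {ε : ℝ} (hε0 : 0 < ε) (hεη : ε ≤ uEta q ka kb D) (hεs : ε ≤ -Real.sqrt q - D)
    {M : ℕ} (hM : D < ka - 1 + M * ε) :
    ∃ N ≤ M, ∃ A : ℕ → ℝ, A 0 = km ∧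
      (∀ i ≤ N, A i ≤ q / A i ∧ A i < 0) ∧
      (∀ i < N, A i ≤ A (i + 1)) ∧
      (∀ i < N, ∀ k ∈ Set.Icc km kp, ∀ z ∈ Set.Icc (A i) (q / A i),
        (1 + k) * (1 + z) - 1 ∈ Set.Icc (A (i + 1)) (q / A (i + 1)) ∧
        k * z / (q + k + z) ∈ Set.Icc (A (i + 1)) (q / A (i + 1))) ∧
      (∀ z ∈ Set.Icc (A N) (q / A N), ∀ v ∈ Set.Icc km kp, Good q v z) := by
  subst e1 e2
  have hq0 := h.q0
  have hkm : ka - 1 < 0 := by linarith [h.a0]
  have hq2 : q / (ka - 1) = kb - 1 := by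
    rw [div_eq_iff hkm.ne]; linarith [h.e]
  obtain ⟨hη, hpr⟩ := u_progress h hD1 hDq hG hF
  have hs0 : 0 ≤ Real.sqrt q := Real.sqrt_nonneg q
  have hs1 : Real.sqrt q * Real.sqrt q = q := Real.mul_self_sqrt hq0.le
  have hex : ∃ i : ℕ, D < ka - 1 + i * ε := ⟨M, hM⟩
  classical
  set N := Nat.find hex with hN
  have hNM : N ≤ M := Nat.find_le hM
  have hlt : ∀ i < N, ka - 1 + i * ε ≤ D := by
    intro i hi
    have := Nat.find_min hex hi
    push Not at this
    exact this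
  have hbd : ∀ i < N, ka - 1 + ((i + 1 : ℕ) : ℝ) * ε ≤ -Real.sqrt q := by
    intro i hi
    have h1 := hlt i hi
    push_cast
    linarith
  have hneg : ∀ i ≤ N, (ka - 1 + (i : ℝ) * ε ≤ q / (ka - 1 + (i : ℝ) * ε)) ∧
      ka - 1 + (i : ℝ) * ε < 0 := by
    intro i hi
    rcases i with _ | i
    · simp only [Nat.cast_zero, zero_mul, add_zero]
      refine ⟨?_, hkm⟩
      rw [hq2]
      have := h.e
      nlinarith [h.b1]
    · have h1 := hbd i (Nat.lt_of_succ_le hi)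
      have hsp : 0 < Real.sqrt q := Real.sqrt_pos.2 hq0
      have h2 : ka - 1 + ((i + 1 : ℕ) : ℝ) * ε < 0 := by linarith
      refine ⟨?_, h2⟩
      rw [le_div_iff_of_neg h2]
      nlinarith
  refine ⟨N, hNM, fun i => ka - 1 + i * ε, by simp, hneg, ?_, ?_, ?_⟩
  · intro i _
    push_cast
    nlinarith
  · intro i hi k hk z hz
    have hAD := hlt i hi
    have hkA : ka - 1 ≤ ka - 1 + i * ε := by
      have : (0 : ℝ) ≤ i * ε := by positivity
      linarith
    obtain ⟨p1, p2, p3, p4⟩ := hpr _ hkA hAD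
    have hT := (hneg (i + 1) hi).2
    have heq : ka - 1 + ((i + 1 : ℕ) : ℝ) * ε = (ka - 1 + i * ε) + ε := by push_cast; ring
    simp only [] at hz ⊢
    rw [heq] at hT ⊢
    generalize uEta q ka kb D = η at *
    set A := ka - 1 + (i : ℝ) * ε with hA
    have hA1 : A < -1 := by linarith
    have hAq : A < -q := by linarith
    have hA0 : A < 0 := by linarith
    have hB0 : 0 < 1 + q / A := by
      have : -1 < q / A := by rw [lt_div_iff_of_neg hA0]; linarith
      linarith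
    have hB1 : q / A < 0 := div_neg_of_pos_of_neg hq0 hA0
    have n3 : ka * (1 + A) - 1 ≤ 0 := by nlinarith [h.a0, h.a1, h.b0, h.b1]
    have n4 : kb * (1 + q / A) - 1 ≤ 0 := by nlinarith [h.a0, h.a1, h.b0, h.b1]
    refine step h hA1 hAq hT (by linarith) (by linarith) ?_ ?_ hk hz
    · have : (A + η) * (ka * (1 + A) - 1) ≤ (A + ε) * (ka * (1 + A) - 1) :=
        mul_le_mul_of_nonpos_right (by linarith) n3
      linarith
    · have : (A + η) * (kb * (1 + q / A) - 1) ≤ (A + ε) * (kb * (1 + q / A) - 1) :=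
        mul_le_mul_of_nonpos_right (by linarith) n4
      linarith
  · exact hgood _ (Nat.find_spec hex) (hneg N le_rfl).2

end

/-- the data needed for the chain -/
def UData (q c D : ℝ) : Prop :=
  D < -1 ∧ D < -q ∧ 0 < D ^ 2 - ((1 + q / c) - 1) * D - q * (1 + q / c) ∧
    0 < (1 + q / c) * D ^ 2 + ((1 + q / c) - 1) * D - q ∧
    ∀ A, D < A → A < 0 → ∀ z ∈ Set.Icc A (q / A), ∀ v ∈ Set.Icc (q / c) c, Good q v z

theorem u_dataA {q c : ℝ} (q0 : 0 < q) (q1 : q < 1) (hc1 : -q < c) (hc0 : c < 0)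
    (hp : 0 < c ^ 3 - 2 * q * c - q ^ 2) : UData q c ((1 - q) / (1 + q / c) - 1) := by
  have hcb : cb q ≤ c := by unfold cb; rw [if_pos q1]; exact hc1.le
  obtain ⟨h, h2, h3⟩ := kb_of (Or.inl ⟨q0, q1⟩) hcb hc0 hp
  have hneg : 1 + q / c < 0 := by
    have : q / c < -1 := by rw [div_lt_iff_of_neg hc0]; linarith
    linarith
  obtain ⟨_, he, ha0, ha1, hb0, hb1, hab⟩ := h
  unfold UData
  set ka := 1 + q / c with hka
  set kb := 1 + c with hkb
  have hqc : q / c = ka - 1 := by rw [hka]; ring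
  have hcc : c = kb - 1 := by rw [hkb]; ring
  have hab2 : ka + kb = ka * kb + 1 - q := by linarith
  have hkane : ka ≠ 0 := hneg.ne
  have hD : (1 + ((1 - q) / ka - 1)) * ka = 1 - q := by
    rw [show 1 + ((1 - q) / ka - 1) = (1 - q) / ka by ring, div_mul_cancel₀ _ hkane]
  set D := (1 - q) / ka - 1 with hDdef
  have hD1 : D < -1 := by
    have : (1 - q) / ka < 0 := div_neg_of_pos_of_neg (by linarith) hneg
    linarith
  have hDq : D < -q := by linarith
  have hD0 : D < 0 := by linarith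
  -- D * (1 - q - kb) = q * kb
  have hDB : D * (1 - q - kb) = q * kb := by
    have e3 : ka * (D * (1 - q - kb)) = ka * (q * kb) := by
      have e4 : ka * D = 1 - q - ka := by linarith
      calc ka * (D * (1 - q - kb)) = (ka * D) * (1 - q - kb) := by ring
        _ = (1 - q - ka) * (1 - q - kb) := by rw [e4]
        _ = (1 - q) ^ 2 - (1 - q) * (ka + kb) + ka * kb := by ring
        _ = ka * (q * kb) := by rw [hab2]; ring
    exact mul_left_cancel₀ hneg.ne e3
  refine ⟨hD1, hDq, ?_, ?_, ?_⟩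
  · -- G(D) > 0
    have e3 : (ka * kb) * (D ^ 2 - (ka - 1) * D - q * ka)
        = D * ((1 - q) * (kb - ka ^ 2)) := by
      have e4 : ka * D = 1 - q - ka := by linarith
      have e5 : q * kb = D * (1 - q - kb) := hDB.symm
      calc (ka * kb) * (D ^ 2 - (ka - 1) * D - q * ka)
          = kb * D * (ka * D) - (ka - 1) * kb * (ka * D) - ka ^ 2 * (q * kb) := by ring
        _ = kb * D * (1 - q - ka) - (ka - 1) * kb * (ka * D)
            - ka ^ 2 * (D * (1 - q - kb)) := by rw [e4, e5, ← e4]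
        _ = D * ((1 - q) * (kb - ka ^ 2)) := by ring
    have e6 : ka * kb < 0 := mul_neg_of_neg_of_pos hneg hb0
    have e7 : D * ((1 - q) * (kb - ka ^ 2)) < 0 :=
      mul_neg_of_neg_of_pos hD0 (mul_pos (by linarith) (by linarith))
    by_contra hcon
    push Not at hcon
    have := mul_nonneg_of_nonpos_of_nonpos e6.le hcon
    linarith
  · have e4 : ka * D = 1 - q - ka := by linarith
    have e5 : ka * D ^ 2 + (ka - 1) * D - q = -q * (1 + D) := by
      have : ka * D ^ 2 = (ka * D) * D := by ring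
      rw [this, e4]
      ring
    rw [e5]
    nlinarith
  · intro A hA hA0 z hz v hv
    refine ⟨fun _ => ?_, fun h => by linarith⟩
    have a3 : 1 + v ≤ kb := by have := hv.2; linarith
    have a4 : ka ≤ 1 + v := by have := hv.1; linarith
    rcases le_or_gt 0 (1 + z) with h6 | h6
    · have a5 : (1 + v) * (1 + z) ≤ kb * (1 + z) := mul_le_mul_of_nonneg_right a3 h6
      -- kb (1+z) < 1 - q
      have a6 : z ≤ q / A := hz.2
      have a7 : q / A < q / D := by
        rw [div_eq_mul_inv, div_eq_mul_inv]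
        exact mul_lt_mul_of_pos_left ((inv_lt_inv_of_neg hA0 hD0).2 hA) q0
      have a8 : kb * (1 + q / D) = 1 - q := by
        have a81 : kb * (1 + q / D) * D = (1 - q) * D := by
          have a80 : (1 + q / D) * D = D + q := by
            rw [add_mul, div_mul_cancel₀ _ hD0.ne, one_mul]
          rw [mul_assoc, a80]
          linarith
        exact mul_right_cancel₀ hD0.ne a81
      have a9 : kb * (1 + z) < kb * (1 + q / D) :=
        mul_lt_mul_of_pos_left (by linarith) hb0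
      linarith
    · have a5 : (1 + v) * (1 + z) ≤ ka * (1 + z) :=
        mul_le_mul_of_nonpos_right a4 h6.le
      have a6 : D < z := lt_of_lt_of_le hA hz.1
      have a9 : ka * (1 + z) < ka * (1 + D) :=
        mul_lt_mul_of_neg_left (by linarith) hneg
      linarith [mul_comm (1 + D) ka]

theorem u_dataB {q c : ℝ} (q0 : 1 < q) (q1 : q < 32 / 27) (hc1 : cb q ≤ c) (hc0 : c < 0)
    (hp : 0 < c ^ 3 - 2 * q * c - q ^ 2) : UData q c ((1 - q) / (1 + c) - 1) := by
  obtain ⟨h, h2, h3⟩ := kb_of (Or.inr ⟨q0, q1⟩) hc1 hc0 hp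
  have hq0 := h.q0
  obtain ⟨_, he, ha0, ha1, hb0, hb1, hab⟩ := h
  unfold UData
  set ka := 1 + q / c with hka
  set kb := 1 + c with hkb
  have hqc : q / c = ka - 1 := by rw [hka]; ring
  have hcc : c = kb - 1 := by rw [hkb]; ring
  have hab2 : ka + kb = ka * kb + 1 - q := by linarith
  have hneg : ka < 0 := by
    have h5 : -c < q := by
      have : -1 < c := by linarith
      linarith
    have : q / c < -1 := by
      rw [div_lt_iff_of_neg hc0]; linarith
    linarith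
  have hkbne : kb ≠ 0 := hb0.ne'
  have hD : (1 + ((1 - q) / kb - 1)) * kb = 1 - q := by
    rw [show 1 + ((1 - q) / kb - 1) = (1 - q) / kb by ring, div_mul_cancel₀ _ hkbne]
  set D := (1 - q) / kb - 1 with hDdef
  have hDq : D < -q := by
    have : (1 - q) / kb < 1 - q := by
      rw [div_lt_iff₀ hb0]; nlinarith
    linarith
  have hD1 : D < -1 := by linarith
  have hD0 : D < 0 := by linarith
  have hDB : D * (1 - q - ka) = q * ka := by
    have e3 : kb * (D * (1 - q - ka)) = kb * (q * ka) := by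
      have e4 : kb * D = 1 - q - kb := by linarith
      calc kb * (D * (1 - q - ka)) = (kb * D) * (1 - q - ka) := by ring
        _ = (1 - q - kb) * (1 - q - ka) := by rw [e4]
        _ = (1 - q) ^ 2 - (1 - q) * (ka + kb) + ka * kb := by ring
        _ = kb * (q * ka) := by rw [hab2]; ring
    exact mul_left_cancel₀ hb0.ne' e3
  refine ⟨hD1, hDq, ?_, ?_, ?_⟩
  · have e3 : D ^ 2 - (ka - 1) * D - q * ka = D * (D + q) := by
      rw [← hDB]; ring
    rw [e3]
    exact mul_pos_of_neg_of_neg hD0 (by linarith)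
  · have e4 : kb * D = 1 - q - kb := by linarith
    -- kb * ka * Fq(D) = ...
    have e3 : (kb * ka) * (ka * D ^ 2 + (ka - 1) * D - q)
        = D * ((1 - q) * (ka ^ 2 - kb)) := by
      have e5 : q * ka = D * (1 - q - ka) := hDB.symm
      calc (kb * ka) * (ka * D ^ 2 + (ka - 1) * D - q)
          = ka ^ 2 * D * (kb * D) + ka * (ka - 1) * (kb * D) - kb * (q * ka) := by ring
        _ = ka ^ 2 * D * (1 - q - kb) + ka * (ka - 1) * (kb * D)
            - kb * (D * (1 - q - ka)) := by rw [e4, e5, ← e4]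
        _ = D * ((1 - q) * (ka ^ 2 - kb)) := by ring
    have e6 : kb * ka < 0 := mul_neg_of_pos_of_neg hb0 hneg
    have e7 : D * ((1 - q) * (ka ^ 2 - kb)) < 0 :=
      mul_neg_of_neg_of_pos hD0 (mul_pos_of_neg_of_neg (by linarith) (by linarith))
    by_contra hcon
    push Not at hcon
    have := mul_nonneg_of_nonpos_of_nonpos e6.le hcon
    linarith
  · intro A hA hA0 z hz v hv
    refine ⟨fun h => by linarith, fun _ => ?_⟩
    have a3 : 1 + v ≤ kb := by have := hv.2; linarith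
    have a4 : ka ≤ 1 + v := by have := hv.1; linarith
    rcases le_or_gt 0 (1 + z) with h6 | h6
    · have a5 : ka * (1 + z) ≤ (1 + v) * (1 + z) := mul_le_mul_of_nonneg_right a4 h6
      have a6 : z ≤ q / A := hz.2
      have a7 : q / A < q / D := by
        rw [div_eq_mul_inv, div_eq_mul_inv]
        exact mul_lt_mul_of_pos_left ((inv_lt_inv_of_neg hA0 hD0).2 hA) hq0
      have a8 : ka * (1 + q / D) = 1 - q := by
        have a81 : ka * (1 + q / D) * D = (1 - q) * D := by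
          have a80 : (1 + q / D) * D = D + q := by
            rw [add_mul, div_mul_cancel₀ _ hD0.ne, one_mul]
          rw [mul_assoc, a80]
          linarith
        exact mul_right_cancel₀ hD0.ne a81
      have a9 : ka * (1 + q / D) < ka * (1 + z) :=
        mul_lt_mul_of_neg_left (by linarith) hneg
      linarith
    · have a5 : kb * (1 + z) ≤ (1 + v) * (1 + z) :=
        mul_le_mul_of_nonpos_right a3 h6.le
      have a6 : D < z := lt_of_lt_of_le hA hz.1
      have a9 : kb * (1 + D) < kb * (1 + z) :=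
        mul_lt_mul_of_pos_left (by linarith) hb0
      linarith [mul_comm (1 + D) kb]

theorem u_cont : Continuous (fun x : ℝ × ℝ × ℝ × ℝ => uEta x.1 x.2.1 x.2.2.1 x.2.2.2) := by
  unfold uEta
  fun_prop

/-- abstract form -/
theorem u_main {q0 c0 : ℝ} (hc00 : c0 ≠ 0) (Df : ℝ × ℝ → ℝ) (hcont : ContinuousAt Df (q0, c0))
    (hev : ∀ᶠ p : ℝ × ℝ in 𝓝 (q0, c0), InR p.1 ∧ cb p.1 ≤ p.2 ∧ p.2 < 0 ∧
      0 < p.2 ^ 3 - 2 * p.1 * p.2 - p.1 ^ 2 ∧ UData p.1 p.2 (Df p)) :
    ∃ N : ℕ, ∀ᶠ p : ℝ × ℝ in 𝓝 (q0, c0), KK p.1 (p.1 / p.2) p.2 ∧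
      ∃ N' ≤ N, ∃ A : ℕ → ℝ, A 0 = p.1 / p.2 ∧
      (∀ i ≤ N', A i ≤ p.1 / A i ∧ A i < 0) ∧
      (∀ i < N', A i ≤ A (i + 1)) ∧
      (∀ i < N', ∀ k ∈ Set.Icc (p.1 / p.2) p.2, ∀ z ∈ Set.Icc (A i) (p.1 / A i),
        (1 + k) * (1 + z) - 1 ∈ Set.Icc (A (i + 1)) (p.1 / A (i + 1)) ∧
        k * z / (p.1 + k + z) ∈ Set.Icc (A (i + 1)) (p.1 / A (i + 1))) ∧
      (∀ z ∈ Set.Icc (A N') (p.1 / A N'), ∀ v ∈ Set.Icc (p.1 / p.2) p.2, Good p.1 v z) := by
  obtain ⟨h1, h2, h3, h4, hD1, hDq, hG, hF, _⟩ := hev.self_of_nhds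
  obtain ⟨hKB, _, _⟩ := kb_of h1 h2 h3 h4
  have hp1 : ContinuousAt (fun p : ℝ × ℝ => p.1) (q0, c0) := continuousAt_fst
  have hp2 : ContinuousAt (fun p : ℝ × ℝ => p.2) (q0, c0) := continuousAt_snd
  have hka : ContinuousAt (fun p : ℝ × ℝ => 1 + p.1 / p.2) (q0, c0) :=
    continuousAt_const.add (hp1.div hp2 hc00)
  have hkb : ContinuousAt (fun p : ℝ × ℝ => 1 + p.2) (q0, c0) := continuousAt_const.add hp2
  set f : ℝ × ℝ → ℝ := fun p => uEta p.1 (1 + p.1 / p.2) (1 + p.2) (Df p) with hf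
  have hfc : ContinuousAt f (q0, c0) := by
    have h5 : ContinuousAt (fun p : ℝ × ℝ => (p.1, 1 + p.1 / p.2, 1 + p.2, Df p)) (q0, c0) :=
      hp1.prodMk (hka.prodMk (hkb.prodMk hcont))
    exact ContinuousAt.comp (g := fun x : ℝ × ℝ × ℝ × ℝ => uEta x.1 x.2.1 x.2.2.1 x.2.2.2)
      (f := fun p : ℝ × ℝ => (p.1, 1 + p.1 / p.2, 1 + p.2, Df p)) u_cont.continuousAt h5
  set g : ℝ × ℝ → ℝ := fun p => -Real.sqrt p.1 - Df p with hg
  have hgc : ContinuousAt g (q0, c0) :=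
    ((Real.continuous_sqrt.continuousAt.comp hp1).neg).sub hcont
  have hf0 : 0 < f (q0, c0) := (u_progress hKB hD1 hDq hG hF).1
  have hg0 : 0 < g (q0, c0) := by
    have := u_sqrt hKB.q0 hD1 hDq
    show 0 < -Real.sqrt q0 - Df (q0, c0)
    have h' : Df (q0, c0) < -Real.sqrt q0 := this
    linarith
  set ε := min (f (q0, c0)) (g (q0, c0)) / 2 with hε
  have hε0 : 0 < ε := half_pos (lt_min hf0 hg0)
  have hεf : ε < f (q0, c0) := by
    have : min (f (q0, c0)) (g (q0, c0)) ≤ f (q0, c0) := min_le_left _ _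
    rw [hε]; linarith
  have hεg : ε < g (q0, c0) := by
    have : min (f (q0, c0)) (g (q0, c0)) ≤ g (q0, c0) := min_le_right _ _
    rw [hε]; linarith
  set k : ℝ × ℝ → ℝ := fun p => Df p - (1 + p.1 / p.2 - 1) with hk
  have hkc : ContinuousAt k (q0, c0) := hcont.sub (hka.sub continuousAt_const)
  obtain ⟨M, hM⟩ := exists_nat_gt (k (q0, c0) / ε)
  rw [div_lt_iff₀ hε0] at hM
  refine ⟨M, ?_⟩
  have ev1 : ∀ᶠ p in 𝓝 (q0, c0), ε < f p := hfc.eventually (lt_mem_nhds hεf)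
  have ev2 : ∀ᶠ p in 𝓝 (q0, c0), ε < g p := hgc.eventually (lt_mem_nhds hεg)
  have ev3 : ∀ᶠ p in 𝓝 (q0, c0), k p < M * ε := hkc.eventually (gt_mem_nhds hM)
  filter_upwards [hev, ev1, ev2, ev3] with p hp hpf hpg hpk
  obtain ⟨i1, i2, i3, i4, j1, j2, j3, j4, j5⟩ := hp
  obtain ⟨hKB', k2, k3⟩ := kb_of i1 i2 i3 i4
  refine ⟨(dyn i1 i2 i3 i4).1, ?_⟩
  have e1 : (1 + p.1 / p.2) - 1 = p.1 / p.2 := by ring
  have e2 : (1 + p.2) - 1 = p.2 := by ring
  refine u_chain hKB' (by rw [e2]; exact k2) j1 j2 j3 j4 e1 e2 j5 hε0 hpf.le hpg.le ?_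
  have : Df p - (1 + p.1 / p.2 - 1) < M * ε := hpk
  linarith

theorem dyn_unif {q0 c0 : ℝ} (hq : InR q0) (hc1 : cb q0 < c0) (hc0 : c0 < 0)
    (hp : 0 < c0 ^ 3 - 2 * q0 * c0 - q0 ^ 2) :
    ∃ N : ℕ, ∀ᶠ p : ℝ × ℝ in 𝓝 (q0, c0), KK p.1 (p.1 / p.2) p.2 ∧
      ∃ N' ≤ N, ∃ A : ℕ → ℝ, A 0 = p.1 / p.2 ∧
      (∀ i ≤ N', A i ≤ p.1 / A i ∧ A i < 0) ∧
      (∀ i < N', A i ≤ A (i + 1)) ∧
      (∀ i < N', ∀ k ∈ Set.Icc (p.1 / p.2) p.2, ∀ z ∈ Set.Icc (A i) (p.1 / A i),
        (1 + k) * (1 + z) - 1 ∈ Set.Icc (A (i + 1)) (p.1 / A (i + 1)) ∧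
        k * z / (p.1 + k + z) ∈ Set.Icc (A (i + 1)) (p.1 / A (i + 1))) ∧
      (∀ z ∈ Set.Icc (A N') (p.1 / A N'), ∀ v ∈ Set.Icc (p.1 / p.2) p.2, Good p.1 v z) := by
  have hp1 : ContinuousAt (fun p : ℝ × ℝ => p.1) (q0, c0) := continuousAt_fst
  have hp2 : ContinuousAt (fun p : ℝ × ℝ => p.2) (q0, c0) := continuousAt_snd
  have evc : ∀ᶠ p : ℝ × ℝ in 𝓝 (q0, c0), p.2 < 0 := hp2.eventually (gt_mem_nhds hc0)
  have evp : ∀ᶠ p : ℝ × ℝ in 𝓝 (q0, c0), 0 < p.2 ^ 3 - 2 * p.1 * p.2 - p.1 ^ 2 := by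
    have hc : Continuous (fun p : ℝ × ℝ => p.2 ^ 3 - 2 * p.1 * p.2 - p.1 ^ 2) := by fun_prop
    exact hc.continuousAt.eventually (lt_mem_nhds (show (0 : ℝ) < _ from hp))
  have hka : ContinuousAt (fun p : ℝ × ℝ => 1 + p.1 / p.2) (q0, c0) :=
    continuousAt_const.add (hp1.div hp2 hc0.ne)
  have hkb : ContinuousAt (fun p : ℝ × ℝ => 1 + p.2) (q0, c0) := continuousAt_const.add hp2
  rcases hq with ⟨h0, h1⟩ | ⟨h0, h1⟩
  · have hcc : -q0 < c0 := by unfold cb at hc1; rwa [if_pos h1] at hc1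
    have hneg : 1 + q0 / c0 < 0 := by
      have : q0 / c0 < -1 := by rw [div_lt_iff_of_neg hc0]; linarith
      linarith
    refine u_main hc0.ne (fun p => (1 - p.1) / (1 + p.1 / p.2) - 1)
      (((continuousAt_const.sub hp1).div hka hneg.ne).sub continuousAt_const) ?_
    have ev0 : ∀ᶠ p : ℝ × ℝ in 𝓝 (q0, c0), 0 < p.1 := hp1.eventually (lt_mem_nhds h0)
    have ev1 : ∀ᶠ p : ℝ × ℝ in 𝓝 (q0, c0), p.1 < 1 := hp1.eventually (gt_mem_nhds h1)
    have ev2 : ∀ᶠ p : ℝ × ℝ in 𝓝 (q0, c0), 0 < p.2 + p.1 :=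
      (hp2.add hp1).eventually (lt_mem_nhds (show (0 : ℝ) < c0 + q0 by linarith))
    filter_upwards [ev0, ev1, ev2, evc, evp] with p a0 a1 a2 a3 a4
    refine ⟨Or.inl ⟨a0, a1⟩, ?_, a3, a4, u_dataA a0 a1 (by linarith) a3 a4⟩
    unfold cb
    rw [if_pos a1]
    linarith
  · have hcc : (3 * q0 - 8) / 5 < c0 := by
      unfold cb at hc1; rwa [if_neg (by linarith)] at hc1
    have hkb0 : (1 : ℝ) + c0 ≠ 0 := by
      have : 0 < 1 + c0 := by linarith
      exact this.ne'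
    refine u_main hc0.ne (fun p => (1 - p.1) / (1 + p.2) - 1)
      (((continuousAt_const.sub hp1).div hkb hkb0).sub continuousAt_const) ?_
    have ev0 : ∀ᶠ p : ℝ × ℝ in 𝓝 (q0, c0), 1 < p.1 := hp1.eventually (lt_mem_nhds h0)
    have ev1 : ∀ᶠ p : ℝ × ℝ in 𝓝 (q0, c0), p.1 < 32 / 27 := hp1.eventually (gt_mem_nhds h1)
    have ev2 : ∀ᶠ p : ℝ × ℝ in 𝓝 (q0, c0), 0 < p.2 - (3 * p.1 - 8) / 5 := by
      have hc : Continuous (fun p : ℝ × ℝ => p.2 - (3 * p.1 - 8) / 5) := by fun_prop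
      exact hc.continuousAt.eventually
        (lt_mem_nhds (show (0 : ℝ) < c0 - (3 * q0 - 8) / 5 by linarith))
    filter_upwards [ev0, ev1, ev2, evc, evp] with p a0 a1 a2 a3 a4
    have hcbp : cb p.1 ≤ p.2 := by
      unfold cb
      rw [if_neg (by linarith)]
      linarith
    exact ⟨Or.inr ⟨a0, a1⟩, hcbp, a3, a4, u_dataB a0 a1 hcbp a3 a4⟩

end Pool.Agent.H194R2.MZ
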