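import Pool.Agent.H194R2.MZ.Defs

/-! Thresholds that do not depend on `q`. -/

namespace Pool.Agent.H194R2.MZ

open Finset Pool.Agent.H194R2.JS

/-- universal thresholds -/
noncomputable def JJ : ℕ → ℕ
  | 0 => 2
  | n + 1 => max (Classical.choose (game (JJ n))) 2

theorem JJ_two (n : ℕ) : 2 ≤ JJ n := by
  cases n with
  | zero => exact le_rfl
  | succ n => exact le_max_right _ _

theorem levels_u {q lo hi : ℝ} (hK : KK q lo hi) {N : ℕ} {A : ℕ → ℝ} (hA0 : A 0 = lo)
    (hlohi : q / lo = hi)
    (hA1 : ∀ i ≤ N, A i ≤ q / A i ∧ A i < 0) (hA2 : ∀ i < N, A i ≤ A (i + 1))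
    (hA3 : ∀ i < N, ∀ k ∈ Set.Icc lo hi, ∀ z ∈ Set.Icc (A i) (q / A i),
        (1 + k) * (1 + z) - 1 ∈ Set.Icc (A (i + 1)) (q / A (i + 1)) ∧
        k * z / (q + k + z) ∈ Set.Icc (A (i + 1)) (q / A (i + 1))) :
    ∀ n ≤ N, ∀ i ≤ n, ∀ (V E : Type) [Fintype V] [DecidableEq V]
    [Fintype E] [DecidableEq E] (r : E) (σ : St V E), Cls lo hi q A JJ i r σ → TC σ.en σ.S →
    r ∈ σ.S → 3 ≤ σ.S.card → JJ i ≤ ∑ e ∈ σ.S.erase r, σ.lab e →
    ww q σ.en σ.wt r σ.S ∈ Set.Icc (A i) (q / A i) := by
  have hmono : ∀ i ≤ N, A 0 ≤ A i := by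
    intro i
    induction i with
    | zero => intro _; exact le_rfl
    | succ i ih => intro h; exact (ih (by omega)).trans (hA2 i (by omega))
  have hsubK : ∀ i ≤ N, Set.Icc (A i) (q / A i) ⊆ Set.Icc lo hi := by
    intro i hi
    have := th_sub hK.q0 (hmono i hi) (hA1 i hi).2
    rw [hA0, hlohi] at this
    exact this
  intro n
  induction n with
  | zero =>
    intro _ i hi V E _ _ _ _ r σ hC hT hr h3 _
    have : i = 0 := by omega
    subst this
    rw [hA0, hlohi]
    exact (lemW hK hT hr (fun e he her => (hC e he her).2.1)).2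
  | succ n ih =>
    intro hn
    have hj := ih (by omega)
    intro i hin V E _ _ _ _ r σ hC hT hr h3 hsum
    by_cases hi1 : i = n + 1
    · subst hi1
      have hm := Classical.choose_spec (game (JJ n))
      have hsum' : Classical.choose (game (JJ n)) ≤ ∑ e ∈ σ.S.erase r, σ.lab e :=
        (le_max_left _ _).trans hsum
      refine hm V E r (fun σ => Cls lo hi q A JJ (n + 1) r σ)
        (fun σ => ww q σ.en σ.wt r σ.S ∈ Set.Icc (A (n + 1)) (q / A (n + 1)))
        ?_ ?_ ?_ ?_ ?_ σ hC hT hr h3 (fun e he her => (hC e he her).1) hsum'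
      · -- deletion
        intro σ e h f hf hfr
        exact h f (mem_of_mem_erase hf) hfr
      · intro σ e x y h f hf hfr
        exact h f (mem_of_mem_erase hf) hfr
      · -- composition
        intro σ B g x y h hT hr hB hrB hB2 hB2' hg hxy hbd
        have hB0 : B.Nonempty := ⟨g, hg⟩
        obtain ⟨t1, t2⟩ := w_halves (r := r) hT hB hB0 hr hrB hbd
        have hwB : ∀ e ∈ insert r B, e ≠ r → e ∈ B := fun e he her => by
          rcases mem_insert.1 he with h | h
          · exact absurd h her
          · exact h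
        have hw : ∀ e ∈ σ.S, e ≠ r → σ.wt e ∈ Set.Icc lo hi := fun e he her => (h e he her).2.1
        refine ⟨ww q (Function.update σ.en r (x, y)) σ.wt r (insert r B), ?_, ?_⟩
        · intro e he her
          by_cases heg : e = g
          · subst heg
            simp only [St.comp, Function.update_self]
            refine ⟨?_, ?_, ?_⟩
            · have h1 : σ.lab e ≤ ∑ e ∈ B, σ.lab e :=
                single_le_sum (f := σ.lab) (fun _ _ => Nat.zero_le _) hg
              exact (h e (hB hg) her).1.trans h1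
            · exact (lemW hK t1 (mem_insert_self _ _)
                (fun f hf hfr => hw f (hB (hwB f hf hfr)) hfr)).2
            · intro i' hi' hle
              refine hj i' (by omega) V E r
                { en := Function.update σ.en r (x, y), S := insert r B, lab := σ.lab, wt := σ.wt }
                ?_ t1 (mem_insert_self _ _) ?_ ?_
              · intro f hf hfr
                have hfB := hwB f hf hfr
                exact ⟨(h f (hB hfB) hfr).1, (h f (hB hfB) hfr).2.1, fun i'' hi'' hle' =>
                  (h f (hB hfB) hfr).2.2 i'' (by omega) hle'⟩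
              · show 3 ≤ (insert r B).card
                rw [card_insert_of_notMem hrB]; omega
              · show JJ i' ≤ ∑ e ∈ (insert r B).erase r, σ.lab e
                rw [erase_insert hrB]; exact hle
          · have heS : e ∈ σ.S := by
              have : e ∈ insert g (σ.S \ B) := he
              rcases mem_insert.1 this with h | h
              · exact absurd h heg
              · exact (mem_sdiff.1 h).1
            simp only [St.comp, Function.update_of_ne heg]
            exact h e heS her
        · intro hW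
          have := ww_comp hK hT hr hw hB hrB hB0 hxy hbd hg
          show ww q σ.en σ.wt r σ.S ∈ _
          rw [this]
          exact hW
      · intro σ e x y h hT hN h4 hr he her hxy h1 h2
        exact mediant hK hT hN h4 hr (fun e he her => (h e he her).2.1) he her hxy h1 h2
      · rintro σ h hT hr h3 ⟨e, he, her, hle⟩
        exact heavy hK (hsubK n (by omega)) (th_sub hK.q0 (hA2 n (by omega)) (hA1 (n + 1) hn).2)
          (fun k hk z hz => (hA3 n (by omega) k hk z hz).1)
          (fun k hk z hz => (hA3 n (by omega) k hk z hz).2) hT h3 hr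
          (fun e he her => (h e he her).2.1) he her ((h e he her).2.2 n (by omega) hle)
    · exact hj i (by omega) V E r σ hC hT hr h3 hsum

/-- the sign property with a threshold depending only on the number of steps -/
theorem thresh_u {q c : ℝ} (hK : KK q (q / c) c) {N : ℕ} {A : ℕ → ℝ} (hA0 : A 0 = q / c)
    (hA1 : ∀ i ≤ N, A i ≤ q / A i ∧ A i < 0) (hA2 : ∀ i < N, A i ≤ A (i + 1))
    (hA3 : ∀ i < N, ∀ k ∈ Set.Icc (q / c) c, ∀ z ∈ Set.Icc (A i) (q / A i),
        (1 + k) * (1 + z) - 1 ∈ Set.Icc (A (i + 1)) (q / A (i + 1)) ∧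
        k * z / (q + k + z) ∈ Set.Icc (A (i + 1)) (q / A (i + 1)))
    (hA4 : ∀ z ∈ Set.Icc (A N) (q / A N), ∀ v ∈ Set.Icc (q / c) c, Good q v z)
    {V E : Type} [Fintype V] [DecidableEq V] [Fintype E] [DecidableEq E]
    {en : E → V × V} {S : Finset E} {wt : E → ℝ} (hT : TC en S) (hS : JJ N + 3 ≤ S.card)
    (hw : ∀ e ∈ S, wt e ∈ Set.Icc (q / c) c) :
    0 < (-1 : ℝ) ^ ((vs en S).card + al q) * F q en wt ∅ S := by
  have hlohi : q / (q / c) = c := by
    have := hK.q0.ne'
    field_simp
  have hj := levels_u hK hA0 hlohi hA1 hA2 hA3 N le_rfl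
  obtain ⟨r, hr⟩ : S.Nonempty := card_pos.1 (by omega)
  refine th_pos hK hT hr hw ?_
  have hww := hj N le_rfl V E r { en := en, S := S, lab := fun _ => 1, wt := wt } ?_ hT hr
    (by show 3 ≤ S.card; omega) ?_
  · exact hA4 _ hww _ (hw r hr)
  · intro e he her
    refine ⟨le_rfl, hw e he, ?_⟩
    intro i' hi' hle
    have := JJ_two i'
    simp only at hle
    omega
  · show JJ N ≤ ∑ e ∈ S.erase r, 1
    rw [sum_const, card_erase_of_mem hr]
    simp only [smul_eq_mul, mul_one]
    omega

end Pool.Agent.H194R2.MZ
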