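import Pool.Agent.H194R2.MZ.GW
import Pool.Agent.H194R2.MZ.UDyn
import Pool.Agent.H194R2.MZ.Block
import Pool.Agent.H194R2.MZ.Poly
import Pool.Agent.H194R2.MZ.Null
import Pool.Agent.H194R2.MZ.UThresh

/-! Assembly: the closure of the zero set is null in the zero-free regions. -/

namespace Pool.Agent.H194R2.MZ

open Finset Pool.Agent.H194R2.JS Filter Topology MeasureTheory

/-- zeros of 2-connected graphs at `p` have at most `m` edges -/
def GG (m : ℕ) (p : ℝ × ℝ) : Prop :=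
  ∀ (V E : Type) [Fintype V] [DecidableEq V] [Fintype E] [DecidableEq E] (en : E → V × V)
    (S : Finset E), TC en S → F p.1 en (fun _ => p.2) ∅ S = 0 → S.card ≤ m

/-- the zero set -/
def ZS : Set (ℝ × ℝ) :=
  {p | ∃ (V E : Type) (_ : Fintype V) (_ : DecidableEq V) (_ : Fintype E) (_ : DecidableEq E)
    (en : E → V × V) (S : Finset E), F p.1 en (fun _ => p.2) ∅ S = 0}

/-- the exceptional closed null set -/
def EX (m : ℕ) : Set (ℝ × ℝ) :=
  ({p | p.1 = 0} ∪ {p | p.2 + 1 = 0} ∪ {p | p.1 + p.2 = 0}) ∪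
    ⋃ n ∈ {n | Adm m n}, {p | PP m n p = 0}

theorem line_null : IsClosed {p : ℝ × ℝ | p.1 = 0} ∧ volume {p : ℝ × ℝ | p.1 = 0} = 0 := by
  refine ⟨isClosed_eq continuous_fst continuous_const, ?_⟩
  have h : {p : ℝ × ℝ | p.1 = 0} = ({0} : Set ℝ) ×ˢ Set.univ := by
    ext p; simp
  rw [h, Measure.volume_eq_prod, Measure.prod_prod]
  simp

theorem fin_sing {v0 : ℝ} {P : ℝ → Prop} (h : ∀ v, P v → v = v0) : {v | P v}.Finite :=
  (Set.finite_singleton v0).subset (fun v hv => h v hv)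

theorem ex_null (m : ℕ) : IsClosed (EX m) ∧ volume (EX m) = 0 := by
  have h1 := line_null
  have h2 := curve_null (fun _ v => v + 1) (by fun_prop)
    (fun q _ => fin_sing (v0 := -1) (fun v hv => by linarith))
  have h3 := curve_null (fun q v => q + v) (by fun_prop)
    (fun q _ => fin_sing (v0 := -q) (fun v hv => by linarith))
  have hfin : {n : Fin (m + 1) → Fin (m + 1) → Fin (2 ^ m + 1) | Adm m n}.Finite :=
    Set.toFinite _
  unfold EX
  constructor
  · refine ((h1.1.union h2.1).union h3.1).union ?_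
    exact hfin.isClosed_biUnion (fun n hn => (pp_null hn).1)
  · rw [measure_union_null_iff, measure_union_null_iff, measure_union_null_iff]
    refine ⟨⟨⟨h1.2, h2.2⟩, h3.2⟩, ?_⟩
    rw [measure_biUnion_null_iff hfin.countable]
    exact fun n hn => (pp_null hn).2

theorem zs_sub {m : ℕ} {p : ℝ × ℝ} (hp : p ∈ ZS) (hG : GG m p) : p ∈ EX m := by
  by_cases h1 : p.1 = 0
  · exact Or.inl (Or.inl (Or.inl h1))
  by_cases h2 : p.2 = -1
  · exact Or.inl (Or.inl (Or.inr (by show p.2 + 1 = 0; linarith)))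
  by_cases h3 : p.1 + p.2 = 0
  · exact Or.inl (Or.inr h3)
  obtain ⟨V, E, _, _, _, _, en, S, hF⟩ := hp
  obtain ⟨A, _, hA, hFA⟩ := exists_block h1 h2 h3 hF
  obtain ⟨n, hn, hP⟩ := small_poly hA (hG V E en A hA hFA) h1 hFA
  refine Or.inr ?_
  simp only [Set.mem_iUnion]
  exact ⟨n, hn, hP⟩

/-- local statement -/
theorem local_null {m : ℕ} {x : ℝ × ℝ} (h : ∀ᶠ p in 𝓝 x, GG m p) :
    ∃ W ∈ 𝓝 x, volume (closure ZS ∩ W) = 0 := by
  obtain ⟨W, hW1, hW2, hxW⟩ := eventually_nhds_iff.1 h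
  refine ⟨W, hW2.mem_nhds hxW, ?_⟩
  refine measure_mono_null ?_ (ex_null m).2
  rintro y ⟨hy1, hy2⟩
  have h1 : y ∈ closure (ZS ∩ W) := by
    rw [mem_closure_iff_nhds] at hy1 ⊢
    intro t ht
    obtain ⟨z, hz1, hz2⟩ := hy1 (t ∩ W) (inter_mem ht (hW2.mem_nhds hy2))
    exact ⟨z, hz1.1, hz2, hz1.2⟩
  have h2 : closure (ZS ∩ W) ⊆ EX m :=
    closure_minimal (fun z hz => zs_sub hz.1 (hW1 z hz.2)) (ex_null m).1
  exact h2 h1

/-- the good points -/
def GS : Set (ℝ × ℝ) := {x | ∃ m, ∀ᶠ p in 𝓝 x, GG m p}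

theorem gs_null : volume (closure ZS ∩ GS) = 0 := by
  refine measure_null_of_locally_null _ ?_
  rintro x ⟨_, m, hm⟩
  obtain ⟨W, hW, h0⟩ := local_null hm
  refine ⟨closure ZS ∩ W, ?_, h0⟩
  refine inter_mem ?_ (mem_nhdsWithin_of_mem_nhds hW)
  exact mem_of_superset self_mem_nhdsWithin Set.inter_subset_left

/-! ### the regions -/

theorem good_pos {q v : ℝ} (hq : 0 < q) (hv : 0 < v) : (q, v) ∈ GS := by
  refine ⟨0, ?_⟩
  have h1 : ∀ᶠ p : ℝ × ℝ in 𝓝 (q, v), 0 < p.1 :=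
    continuous_fst.continuousAt.eventually (lt_mem_nhds hq)
  have h2 : ∀ᶠ p : ℝ × ℝ in 𝓝 (q, v), 0 < p.2 :=
    continuous_snd.continuousAt.eventually (lt_mem_nhds hv)
  filter_upwards [h1, h2] with p hp1 hp2
  intro V E _ _ _ _ en S _ hF
  exfalso
  have : 0 < F p.1 en (fun _ => p.2) ∅ S := by
    unfold F
    refine sum_pos ?_ ⟨∅, by simp⟩
    intro A _
    exact mul_pos (pow_pos hp1 _) (prod_pos (fun _ _ => hp2))
  linarith

theorem good_one {q v : ℝ} (hq : q < 0) (hv : -2 < v) (hv' : v < 0) : (q, v) ∈ GS := by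
  refine ⟨0, ?_⟩
  have h1 : ∀ᶠ p : ℝ × ℝ in 𝓝 (q, v), p.1 < 0 :=
    continuous_fst.continuousAt.eventually (gt_mem_nhds hq)
  have h2 : ∀ᶠ p : ℝ × ℝ in 𝓝 (q, v), -2 < p.2 :=
    continuous_snd.continuousAt.eventually (lt_mem_nhds hv)
  have h3 : ∀ᶠ p : ℝ × ℝ in 𝓝 (q, v), p.2 < 0 :=
    continuous_snd.continuousAt.eventually (gt_mem_nhds hv')
  filter_upwards [h1, h2, h3] with p hp1 hp2 hp3
  intro V E _ _ _ _ en S hT hF
  exact absurd hF (nz_one hT hp1 hp2 hp3)

theorem good_two {q v : ℝ} (hq : q < 0) (hv : -q / 2 < v) : (q, v) ∈ GS := by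
  refine ⟨0, ?_⟩
  have h1 : ∀ᶠ p : ℝ × ℝ in 𝓝 (q, v), p.1 < 0 :=
    continuous_fst.continuousAt.eventually (gt_mem_nhds hq)
  have h2 : ∀ᶠ p : ℝ × ℝ in 𝓝 (q, v), 0 < p.2 + p.1 / 2 := by
    have hc : Continuous fun p : ℝ × ℝ => p.2 + p.1 / 2 := by fun_prop
    exact hc.continuousAt.eventually (lt_mem_nhds (by show 0 < v + q / 2; linarith))
  filter_upwards [h1, h2] with p hp1 hp2
  intro V E _ _ _ _ en S hT hF
  exact absurd hF (nz_two hT hp1 (by linarith))

theorem good_mid {q v vp : ℝ} (hq : InR q) (hm : IsMid q vp) (hv1 : q / vp < v) (hv2 : v < vp) :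
    (q, v) ∈ GS := by
  have hq0 : 0 < q := by rcases hq with h | h <;> linarith [h.1]
  -- the middle root is unique
  obtain ⟨w, hw, hw1, hw2, hw3⟩ := mid_exists hq
  have hvw : vp = w := by
    obtain ⟨h1, ⟨a, ha, ha'⟩, ⟨b, hb, hb'⟩⟩ := hm
    obtain ⟨g1, ⟨c, hc, hc'⟩, ⟨d, hd, hd'⟩⟩ := hw
    by_contra hne
    -- two different roots `x < y` with third root `-(x + y)`
    have key : ∀ x y z : ℝ, x ≠ y → x ^ 3 - 2 * q * x - q ^ 2 = 0 →
        y ^ 3 - 2 * q * y - q ^ 2 = 0 → z ^ 3 - 2 * q * z - q ^ 2 = 0 →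
        z = x ∨ z = y ∨ z = -(x + y) := by
      intro x y z hxy hx hy hz
      have e1 : x ^ 2 + x * y + y ^ 2 = 2 * q := by
        have : (x - y) * (x ^ 2 + x * y + y ^ 2 - 2 * q) = 0 := by linarith
        rcases mul_eq_zero.1 this with h | h
        · exact absurd (sub_eq_zero.1 h) hxy
        · linarith
      have e2 : (z - x) * ((z - y) * (z + x + y)) = 0 := by
        have : q ^ 2 = x ^ 3 - 2 * q * x := by linarith
        have e3 : z ^ 3 - 2 * q * z - q ^ 2 = (z - x) * ((z - y) * (z + x + y)) := by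
          rw [this, ← e1]; ring
        rw [← e3]; exact hz
      rcases mul_eq_zero.1 e2 with h | h
      · exact Or.inl (by linarith)
      · rcases mul_eq_zero.1 h with h | h
        · exact Or.inr (Or.inl (by linarith))
        · exact Or.inr (Or.inr (by linarith))
    have k1 := key vp w a hne h1 g1 ha'
    have k2 := key vp w b hne h1 g1 hb'
    have k3 := key vp w c hne h1 g1 hc'
    have k4 := key vp w d hne h1 g1 hd'
    rcases lt_or_gt_of_ne hne with h | h <;> rcases k1 with k1 | k1 | k1 <;>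
      rcases k2 with k2 | k2 | k2 <;> rcases k3 with k3 | k3 | k3 <;>
      rcases k4 with k4 | k4 | k4 <;> linarith
  subst hvw
  have hv0 : v < 0 := hv2.trans hw2
  have hqv : q / v < vp := by
    rw [div_lt_iff_of_neg hv0]
    rw [div_lt_iff_of_neg hw2] at hv1
    linarith
  -- choose `c`
  obtain ⟨c, hc1, hc2⟩ := exists_between (show max (max v (q / v)) (cb q) < vp from
    max_lt (max_lt hv2 hqv) hw1)
  have hc0 : c < 0 := hc2.trans hw2
  have hcb : cb q < c := lt_of_le_of_lt (le_max_right _ _) hc1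
  have hvc : v < c := lt_of_le_of_lt ((le_max_left _ _).trans (le_max_left _ _)) hc1
  have hqvc : q / v < c := lt_of_le_of_lt ((le_max_right _ _).trans (le_max_left _ _)) hc1
  have hqc : c * v < q := by rw [div_lt_iff_of_neg hv0] at hqvc; linarith
  obtain ⟨N, hN⟩ := dyn_unif hq hcb hc0 (hw3 c hcb.le hc2)
  refine ⟨∑ i ∈ range (N + 1), JJ i + 3, ?_⟩
  have hpull : Tendsto (fun p : ℝ × ℝ => (p.1, c)) (𝓝 (q, v)) (𝓝 (q, c)) := by
    have : Continuous fun p : ℝ × ℝ => ((p.1, c) : ℝ × ℝ) := by fun_prop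
    exact this.tendsto' _ _ rfl
  have h1 := hpull.eventually hN
  have h2 : ∀ᶠ p : ℝ × ℝ in 𝓝 (q, v), p.2 < c :=
    continuous_snd.continuousAt.eventually (gt_mem_nhds hvc)
  have h3 : ∀ᶠ p : ℝ × ℝ in 𝓝 (q, v), 0 < p.1 - c * p.2 := by
    have hc : Continuous fun p : ℝ × ℝ => p.1 - c * p.2 := by fun_prop
    exact hc.continuousAt.eventually (lt_mem_nhds (by show 0 < q - c * v; linarith))
  filter_upwards [h1, h2, h3] with p hp1 hp2 hp3
  intro V E _ _ _ _ en S hT hF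
  by_contra hcard
  push Not at hcard
  obtain ⟨hK, N', hN', A, hA0, hA1, hA2, hA3, hA4⟩ := hp1
  have hJ : JJ N' ≤ ∑ i ∈ range (N + 1), JJ i :=
    single_le_sum (f := JJ) (fun _ _ => Nat.zero_le _) (mem_range.2 (by omega))
  have := thresh_u hK hA0 hA1 hA2 hA3 hA4 (en := en) (wt := fun _ => p.2) hT (by omega)
    (fun e _ => ⟨by
      show p.1 / c ≤ p.2
      rw [div_le_iff_of_neg hc0]; linarith, hp2.le⟩)
  rw [hF] at this
  simp at this

/-- the curves bounding the regions -/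
def BD : Set (ℝ × ℝ) :=
  {p | p.1 = 0} ∪ {p | p.2 = 0} ∪ {p | p.2 + 2 = 0} ∪ {p | p.2 + p.1 / 2 = 0} ∪
    {p | p.2 ^ 3 - 2 * p.1 * p.2 - p.1 ^ 2 = 0} ∪ {p | p.2 ^ 3 + 2 * p.2 ^ 2 - p.1 = 0}

theorem cubic_fin (a b c : ℝ) : {v : ℝ | v ^ 3 + a * v ^ 2 + b * v + c = 0}.Finite := by
  classical
  have h : (Polynomial.X ^ 3 + Polynomial.C a * Polynomial.X ^ 2 + Polynomial.C b * Polynomial.X
      + Polynomial.C c : Polynomial ℝ) ≠ 0 := by
    intro h
    have := congrArg (fun p => Polynomial.coeff p 3) h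
    simp [Polynomial.coeff_X, Polynomial.coeff_C] at this
  refine (Polynomial.finite_setOfPred_isRoot h).subset ?_
  intro v hv
  simp only [Set.mem_ofPred_eq, Polynomial.IsRoot.def, Polynomial.eval_add, Polynomial.eval_mul,
    Polynomial.eval_pow, Polynomial.eval_X, Polynomial.eval_C] at hv ⊢
  exact hv

theorem bd_null : volume BD = 0 := by
  have h1 := line_null.2
  have h2 := (curve_null (fun _ v => v) (by fun_prop)
    (fun q _ => fin_sing (v0 := 0) (fun v hv => hv))).2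
  have h3 := (curve_null (fun _ v => v + 2) (by fun_prop)
    (fun q _ => fin_sing (v0 := -2) (fun v hv => by linarith))).2
  have h4 := (curve_null (fun q v => v + q / 2) (by fun_prop)
    (fun q _ => fin_sing (v0 := -(q / 2)) (fun v hv => by linarith))).2
  have h5 := (curve_null (fun q v => v ^ 3 - 2 * q * v - q ^ 2) (by fun_prop)
    (fun q _ => (cubic_fin 0 (-2 * q) (-q ^ 2)).subset (fun v hv => by
      simp only [Set.mem_ofPred_eq] at hv ⊢
      linarith))).2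
  have h6 := (curve_null (fun q v => v ^ 3 + 2 * v ^ 2 - q) (by fun_prop)
    (fun q _ => (cubic_fin 2 0 (-q)).subset (fun v hv => by
      simp only [Set.mem_ofPred_eq] at hv ⊢
      linarith))).2
  unfold BD
  rw [measure_union_null_iff, measure_union_null_iff, measure_union_null_iff,
    measure_union_null_iff, measure_union_null_iff]
  exact ⟨⟨⟨⟨⟨h1, h2⟩, h3⟩, h4⟩, h5⟩, h6⟩

/-- the three regions -/
def RR : Set (ℝ × ℝ) :=
  {p | p.1 ≤ 0 ∧ ((-2 ≤ p.2 ∧ p.2 ≤ 0) ∨ -p.1 / 2 ≤ p.2)} ∪ {p | 0 ≤ p.1 ∧ 0 ≤ p.2} ∪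
    {p | InR p.1 ∧ ∃ vp, IsMid p.1 vp ∧ p.1 / vp ≤ p.2 ∧ p.2 ≤ vp}

theorem rr_sub : RR ⊆ GS ∪ BD := by
  rintro ⟨q, v⟩ ((⟨h1, h2⟩ | ⟨h1, h2⟩) | ⟨h1, vp, h2, h3, h4⟩)
  · simp only at h1 h2
    rcases h1.eq_or_lt with h0 | h0
    · exact Or.inr (Or.inl (Or.inl (Or.inl (Or.inl (Or.inl h0)))))
    rcases h2 with ⟨h2, h3⟩ | h2
    · rcases h2.eq_or_lt with h2 | h2
      · exact Or.inr (Or.inl (Or.inl (Or.inl (Or.inr (by
          show v + 2 = 0
          linarith)))))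
      rcases h3.eq_or_lt with h3 | h3
      · exact Or.inr (Or.inl (Or.inl (Or.inl (Or.inl (Or.inr h3)))))
      · exact Or.inl (good_one h0 h2 h3)
    · rcases h2.eq_or_lt with h2 | h2
      · exact Or.inr (Or.inl (Or.inl (Or.inr (by
          show v + q / 2 = 0
          linarith))))
      · exact Or.inl (good_two h0 h2)
  · simp only at h1 h2
    rcases h1.eq_or_lt with h0 | h0
    · exact Or.inr (Or.inl (Or.inl (Or.inl (Or.inl (Or.inl h0.symm)))))
    rcases h2.eq_or_lt with h3 | h3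
    · exact Or.inr (Or.inl (Or.inl (Or.inl (Or.inl (Or.inr h3.symm)))))
    · exact Or.inl (good_pos h0 h3)
  · simp only at h1 h2 h3 h4
    have hq0 : 0 < q := by rcases h1 with h | h <;> linarith [h.1]
    rcases h4.eq_or_lt with h5 | h5
    · refine Or.inr (Or.inl (Or.inr ?_))
      show v ^ 3 - 2 * q * v - q ^ 2 = 0
      rw [h5]; exact h2.1
    rcases h3.eq_or_lt with h6 | h6
    · refine Or.inr (Or.inr ?_)
      show v ^ 3 + 2 * v ^ 2 - q = 0
      have h7 := h2.1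
      have hvp : vp ≠ 0 := by
        rintro rfl
        have : q ^ 2 = 0 := by linarith
        exact hq0.ne' (by simpa using this)
      rw [← h6]
      have h8 : vp ^ 3 * ((q / vp) ^ 3 + 2 * (q / vp) ^ 2 - q)
          = -q * (vp ^ 3 - 2 * q * vp - q ^ 2) := by
        field_simp
        ring
      rw [h7, mul_zero] at h8
      rcases mul_eq_zero.1 h8 with h | h
      · exact absurd (pow_eq_zero_iff (by norm_num) |>.1 h) hvp
      · exact h
    · exact Or.inl (good_mid h1 h2 h6 h5)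

theorem main_null : volume (closure ZS ∩ RR) = 0 := by
  refine measure_mono_null (t := (closure ZS ∩ GS) ∪ BD) ?_ ?_
  · rintro x ⟨hx1, hx2⟩
    rcases rr_sub hx2 with h | h
    · exact Or.inl ⟨hx1, h⟩
    · exact Or.inr h
  · rw [measure_union_null_iff]
    exact ⟨gs_null, bd_null⟩

end Pool.Agent.H194R2.MZ
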